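import Mathlib

set_option autoImplicit false

namespace Pool.Agent.H48.Sub

/-! ## Clusters and covers -/

/-- `G[S]` has no induced path on three vertices. -/
def IsCl {V : Type*} (G : SimpleGraph V) (S : Set V) : Prop :=
  ∀ u ∈ S, ∀ v ∈ S, ∀ w ∈ S, G.Adj u v → G.Adj v w → u ≠ w → G.Adj u w

/-- `S` is covered by `k` clusters. -/
def Cov {V : Type*} (G : SimpleGraph V) : ℕ → Set V → Prop
  | 0, S => S = ∅
  | k + 1, S => ∃ A : Set V, IsCl G A ∧ Cov G k (S \ A)

theorem IsCl.mono {V : Type*} {G : SimpleGraph V} {S T : Set V} (h : IsCl G T) (hst : S ⊆ T) :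
    IsCl G S :=
  fun u hu v hv w hw => h u (hst hu) v (hst hv) w (hst hw)

theorem Cov.mono {V : Type*} {G : SimpleGraph V} {k : ℕ} {S T : Set V} (h : Cov G k T)
    (hst : S ⊆ T) : Cov G k S := by
  induction k generalizing S T with
  | zero => exact Set.subset_eq_empty (hst.trans (le_of_eq h)) rfl
  | succ k ih =>
    obtain ⟨A, hA, h2⟩ := h
    exact ⟨A, hA, ih h2 (Set.sdiff_subset_sdiff_left hst)⟩

theorem Cov.succ {V : Type*} {G : SimpleGraph V} {k : ℕ} {S : Set V} (h : Cov G k S) :
    Cov G (k + 1) S :=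
  ⟨∅, fun u hu => absurd hu (Set.notMem_empty u), by simpa using h⟩

theorem Cov.le {V : Type*} {G : SimpleGraph V} {k l : ℕ} {S : Set V} (h : Cov G k S)
    (hkl : k ≤ l) : Cov G l S := by
  induction l, hkl using Nat.le_induction with
  | base => exact h
  | succ m _ ih => exact ih.succ

theorem Cov.add {V : Type*} {G : SimpleGraph V} {k : ℕ} {S A T : Set V} (hA : IsCl G A)
    (hT : Cov G k T) (hS : S ⊆ A ∪ T) : Cov G (k + 1) S :=
  ⟨A, hA, hT.mono (fun x hx => (hS hx.1).resolve_left hx.2)⟩

theorem Cov.image {V W : Type*} (G : SimpleGraph V) (f : W → V) (hf : Function.Injective f)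
    {k : ℕ} {S : Set W} (h : Cov (G.comap f) k S) : Cov G k (f '' S) := by
  induction k generalizing S with
  | zero => 
    have h' : S = ∅ := h
    subst h'
    simp [Cov]
  | succ k ih =>
    obtain ⟨A, hA, h2⟩ := h
    refine ⟨f '' A, ?_, ?_⟩
    · rintro _ ⟨u, hu, rfl⟩ _ ⟨v, hv, rfl⟩ _ ⟨w, hw, rfl⟩ h1 h3 h4
      exact hA u hu v hv w hw h1 h3 (fun h => h4 (congrArg f h))
    · rw [← Set.image_sdiff hf]
      exact ih h2

theorem Cov.exists_coloring {V : Type*} {G : SimpleGraph V} {k : ℕ} {S : Set V}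
    (h : Cov G k S) : ∃ c : V → ℕ, (∀ v ∈ S, c v < k) ∧
      ∀ u ∈ S, ∀ v ∈ S, ∀ w ∈ S, c u = c v → c v = c w → G.Adj u v → G.Adj v w → u ≠ w →
        G.Adj u w := by
  classical
  induction k generalizing S with
  | zero =>
    have h' : S = ∅ := h
    subst h'
    exact ⟨fun _ => 0, by simp, by simp⟩
  | succ k ih =>
    obtain ⟨A, hA, h2⟩ := h
    obtain ⟨c, hc1, hc2⟩ := ih h2
    refine ⟨fun v => if v ∈ A then k else c v, ?_, ?_⟩
    · intro v hv
      by_cases h : v ∈ A
      · simp [h]
      · simp only [h, if_false]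
        have := hc1 v ⟨hv, h⟩
        omega
    · intro u hu v hv w hw h1 h3 h4 h5 h6
      by_cases hvA : v ∈ A
      · have huA : u ∈ A := by
          by_contra huA
          simp only [hvA, huA, if_true, if_false] at h1
          have := hc1 u ⟨hu, huA⟩
          omega
        have hwA : w ∈ A := by
          by_contra hwA
          simp only [hvA, hwA, if_true, if_false] at h3
          have := hc1 w ⟨hw, hwA⟩
          omega
        exact hA u huA v hvA w hwA h4 h5 h6
      · have huA : u ∉ A := by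
          intro huA
          simp only [hvA, huA, if_true, if_false] at h1
          have := hc1 v ⟨hv, hvA⟩
          omega
        have hwA : w ∉ A := by
          intro hwA
          simp only [hvA, hwA, if_true, if_false] at h3
          have := hc1 v ⟨hv, hvA⟩
          omega
        simp only [hvA, huA, hwA, if_false] at h1 h3
        exact hc2 u ⟨hu, huA⟩ v ⟨hv, hvA⟩ w ⟨hw, hwA⟩ h1 h3 h4 h5 h6

/-! ## Kernel-friendly bit operations -/

noncomputable def bit (m k : ℕ) : Bool := Nat.beq (Nat.land (Nat.shiftRight m k) 1) 1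

theorem bit_eq (m k : ℕ) : bit m k = m.testBit k := by
  have h1 : Nat.land (Nat.shiftRight m k) 1 = (m >>> k) &&& 1 := rfl
  unfold bit
  rw [h1, Nat.and_one_is_mod, Nat.testBit_eq_decide_div_mod_eq, Nat.shiftRight_eq_div_pow]
  rw [Bool.eq_iff_iff]
  simp [Nat.beq_eq]

noncomputable def ix (u v : ℕ) : ℕ := Nat.add (Nat.mul 16 u) v

theorem ix_eq (u v : ℕ) : ix u v = 16 * u + v := rfl

noncomputable def m2 (u v : ℕ) : ℕ :=
  Nat.lor (Nat.shiftLeft 1 (ix u v)) (Nat.shiftLeft 1 (ix v u))

theorem bit_lor (a b k : ℕ) : bit (Nat.lor a b) k = (bit a k || bit b k) := by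
  have h1 : Nat.lor a b = a ||| b := rfl
  rw [h1, bit_eq, bit_eq, bit_eq, Nat.testBit_or]

theorem bit_shl (a k : ℕ) : bit (Nat.shiftLeft 1 a) k = true ↔ a = k := by
  have h1 : Nat.shiftLeft 1 a = 1 <<< a := rfl
  rw [h1, bit_eq, Nat.one_shiftLeft, Nat.testBit_two_pow]
  simp

theorem bit_m2 {u v i j : ℕ} (hu : u < 16) (hv : v < 16) (hi : i < 16) (hj : j < 16)
    (h : bit (m2 u v) (ix i j) = true) : (i = u ∧ j = v) ∨ (i = v ∧ j = u) := by
  unfold m2 at h
  rw [bit_lor, Bool.or_eq_true, bit_shl, bit_shl, ix_eq, ix_eq, ix_eq] at h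
  omega

/-! ## Consistency of a graph with a pair of bit matrices -/

def Cons {n : ℕ} (G : SimpleGraph (Fin n)) (P Q : ℕ) : Prop :=
  (∀ i j : Fin n, bit P (ix i.val j.val) = true → G.Adj i j) ∧
  (∀ i j : Fin n, bit Q (ix i.val j.val) = true → ¬ G.Adj i j)

theorem Cons.pos {n : ℕ} (hn : n ≤ 16) {G : SimpleGraph (Fin n)} {P Q : ℕ} (h : Cons G P Q)
    {u v : ℕ} (hu : u < n) (hv : v < n) (huv : G.Adj ⟨u, hu⟩ ⟨v, hv⟩) :
    Cons G (Nat.lor P (m2 u v)) Q := by
  refine ⟨fun i j hij => ?_, h.2⟩
  rw [bit_lor, Bool.or_eq_true] at hij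
  rcases hij with hij | hij
  · exact h.1 i j hij
  · rcases bit_m2 (by omega) (by omega) (by omega) (by omega) hij with ⟨h1, h2⟩ | ⟨h1, h2⟩
    · have e1 : i = ⟨u, hu⟩ := Fin.ext h1
      have e2 : j = ⟨v, hv⟩ := Fin.ext h2
      rw [e1, e2]; exact huv
    · have e1 : i = ⟨v, hv⟩ := Fin.ext h1
      have e2 : j = ⟨u, hu⟩ := Fin.ext h2
      rw [e1, e2]; exact huv.symm

theorem Cons.neg {n : ℕ} (hn : n ≤ 16) {G : SimpleGraph (Fin n)} {P Q : ℕ} (h : Cons G P Q)
    {u v : ℕ} (hu : u < n) (hv : v < n) (huv : ¬ G.Adj ⟨u, hu⟩ ⟨v, hv⟩) :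
    Cons G P (Nat.lor Q (m2 u v)) := by
  refine ⟨h.1, fun i j hij => ?_⟩
  rw [bit_lor, Bool.or_eq_true] at hij
  rcases hij with hij | hij
  · exact h.2 i j hij
  · rcases bit_m2 (by omega) (by omega) (by omega) (by omega) hij with ⟨h1, h2⟩ | ⟨h1, h2⟩
    · have e1 : i = ⟨u, hu⟩ := Fin.ext h1
      have e2 : j = ⟨v, hv⟩ := Fin.ext h2
      rw [e1, e2]; exact huv
    · have e1 : i = ⟨v, hv⟩ := Fin.ext h1
      have e2 : j = ⟨u, hu⟩ := Fin.ext h2
      rw [e1, e2]; exact fun h => huv h.symm

/-! ## List checks -/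

/-- all pairs `(a, b)`, `b ∈ l`, are set in `M` -/
noncomputable def rowAll (M a : ℕ) (l : List ℕ) : Bool :=
  List.rec true (fun b _ ih => cond (bit M (ix a b)) ih false) l

theorem rowAll_spec {M a : ℕ} {l : List ℕ} (h : rowAll M a l = true) :
    ∀ b ∈ l, bit M (ix a b) = true := by
  induction l with
  | nil => intro b hb; exact absurd hb List.not_mem_nil
  | cons c l ih =>
    have h1 : rowAll M a (c :: l) = cond (bit M (ix a c)) (rowAll M a l) false := rfl
    rw [h1] at h
    rcases hb : bit M (ix a c) with _ | _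
    · rw [hb] at h; exact Bool.noConfusion h
    · rw [hb] at h
      intro b hb'
      rcases List.mem_cons.mp hb' with rfl | h2
      · exact hb
      · exact ih h b h2

noncomputable def maskL (l : List ℕ) : ℕ :=
  List.rec 0 (fun a _ ih => Nat.lor ih (Nat.shiftLeft 1 a)) l

theorem maskL_cons (a : ℕ) (l : List ℕ) :
    maskL (a :: l) = Nat.lor (maskL l) (Nat.shiftLeft 1 a) := rfl

theorem maskL_spec {l : List ℕ} {k : ℕ} (h : bit (maskL l) k = true) : k ∈ l := by
  induction l with
  | nil =>
    exfalso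
    have h1 : maskL [] = 0 := rfl
    rw [h1, bit_eq, Nat.zero_testBit] at h
    exact Bool.noConfusion h
  | cons a l ih =>
    rw [maskL_cons, bit_lor, Bool.or_eq_true, bit_shl] at h
    rcases h with h | h
    · exact List.mem_cons_of_mem _ (ih h)
    · rw [h]; exact List.mem_cons_self

theorem bit_maskL {l : List ℕ} {k : ℕ} (h : k ∈ l) : bit (maskL l) k = true := by
  induction l with
  | nil => exact absurd h List.not_mem_nil
  | cons a l ih =>
    rw [maskL_cons, bit_lor, Bool.or_eq_true, bit_shl]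
    rcases List.mem_cons.mp h with h | h
    · exact Or.inr h.symm
    · exact Or.inl (ih h)

/-- all rows `a ∈ c` of `M` contain the mask `md` -/
noncomputable def crossM (M md : ℕ) (c : List ℕ) : Bool :=
  List.rec true (fun a _ ih =>
    cond (Nat.beq (Nat.land (Nat.shiftRight M (Nat.mul 16 a)) md) md) ih false) c

theorem crossM_spec {M md : ℕ} {c : List ℕ} (h : crossM M md c = true) :
    ∀ a ∈ c, ∀ b, bit md b = true → bit M (ix a b) = true := by
  induction c with
  | nil => intro a ha; exact absurd ha List.not_mem_nil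
  | cons x c ih =>
    have h1 : crossM M md (x :: c) =
      cond (Nat.beq (Nat.land (Nat.shiftRight M (Nat.mul 16 x)) md) md) (crossM M md c) false :=
        rfl
    rw [h1] at h
    rcases hb : Nat.beq (Nat.land (Nat.shiftRight M (Nat.mul 16 x)) md) md with _ | _
    · rw [hb] at h; exact Bool.noConfusion h
    · rw [hb] at h
      intro a ha b hbit
      rcases List.mem_cons.mp ha with rfl | h2
      · have h3 : (M >>> (16 * a)) &&& md = md := Nat.eq_of_beq_eq_true hb
        rw [bit_eq] at hbit ⊢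
        rw [← h3, Nat.testBit_land, Bool.and_eq_true, Nat.testBit_shiftRight] at hbit
        rw [ix_eq]
        exact hbit.1
      · exact ih h a h2 b hbit

noncomputable def cross (M : ℕ) (c d : List ℕ) : Bool := crossM M (maskL d) c

theorem cross_spec {M : ℕ} {c d : List ℕ} (h : cross M c d = true) :
    ∀ a ∈ c, ∀ b ∈ d, bit M (ix a b) = true :=
  fun a ha b hb => crossM_spec h a ha b (bit_maskL hb)

noncomputable def crossAll (M : ℕ) (c : List ℕ) (ds : List (List ℕ)) : Bool :=
  List.rec true (fun d _ ih => cond (cross M c d) ih false) ds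

theorem crossAll_spec {M : ℕ} {c : List ℕ} {ds : List (List ℕ)}
    (h : crossAll M c ds = true) : ∀ d ∈ ds, cross M c d = true := by
  induction ds with
  | nil => intro a ha; exact absurd ha List.not_mem_nil
  | cons x ds ih =>
    have h1 : crossAll M c (x :: ds) = cond (cross M c x) (crossAll M c ds) false := rfl
    rw [h1] at h
    rcases hb : cross M c x with _ | _
    · rw [hb] at h; exact Bool.noConfusion h
    · rw [hb] at h
      intro a ha
      rcases List.mem_cons.mp ha with rfl | h2
      · exact hb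
      · exact ih h a h2

noncomputable def allPairs (M : ℕ) (c : List ℕ) : Bool :=
  List.rec true (fun a l ih => cond (rowAll M a l) ih false) c

theorem allPairs_spec {n : ℕ} {G : SimpleGraph (Fin n)} {P Q : ℕ} (hG : Cons G P Q)
    {c : List ℕ} (h : allPairs P c = true) :
    ∀ u w : Fin n, u.val ∈ c → w.val ∈ c → u ≠ w → G.Adj u w := by
  induction c with
  | nil => intro u w ha; exact absurd ha List.not_mem_nil
  | cons x c ih =>
    have h1 : allPairs P (x :: c) = cond (rowAll P x c) (allPairs P c) false := rfl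
    rw [h1] at h
    rcases hb : rowAll P x c with _ | _
    · rw [hb] at h; exact Bool.noConfusion h
    · rw [hb] at h
      intro u w hu hw huw
      rcases List.mem_cons.mp hu with h2 | h2 <;> rcases List.mem_cons.mp hw with h3 | h3
      · exact absurd (Fin.ext (h2.trans h3.symm)) huw
      · have := rowAll_spec hb w.val h3
        rw [← h2] at this
        exact hG.1 u w this
      · have := rowAll_spec hb u.val h2
        rw [← h3] at this
        exact (hG.1 w u this).symm
      · exact ih h u w h2 h3 huw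

noncomputable def short (c : List ℕ) : Bool :=
  List.rec true (fun _ l _ => List.rec true (fun _ l' _ => List.rec true (fun _ _ _ => false) l') l) c

theorem short_spec {c : List ℕ} (h : short c = true) : c.length ≤ 2 := by
  rcases c with _ | ⟨a, _ | ⟨b, _ | ⟨d, l⟩⟩⟩
  · simp
  · simp
  · simp
  · exact Bool.noConfusion h

noncomputable def clsOK (P Q : ℕ) (cls : List (List ℕ)) : Bool :=
  List.rec true (fun c cs ih =>
    cond (cond (short c) true (allPairs P c)) (cond (crossAll Q c cs) ih false) false) cls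

theorem clsOK_cons (P Q : ℕ) (c : List ℕ) (cs : List (List ℕ)) :
    clsOK P Q (c :: cs) =
      cond (cond (short c) true (allPairs P c)) (cond (crossAll Q c cs) (clsOK P Q cs) false)
        false := rfl

theorem clsOK_parts {P Q : ℕ} {c : List ℕ} {cs : List (List ℕ)}
    (h : clsOK P Q (c :: cs) = true) :
    (short c = true ∨ allPairs P c = true) ∧ crossAll Q c cs = true ∧ clsOK P Q cs = true := by
  rw [clsOK_cons] at h
  rcases h1 : short c with _ | _ <;> rcases h2 : allPairs P c with _ | _ <;>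
    rcases h3 : crossAll Q c cs with _ | _ <;> simp_all

/-- the vertices of a class -/
def clsSet {n : ℕ} (cls : List (List ℕ)) : Set (Fin n) := {v | ∃ c ∈ cls, v.val ∈ c}

theorem clsOK_comp {n : ℕ} {G : SimpleGraph (Fin n)} {P Q : ℕ} (hG : Cons G P Q)
    {cls : List (List ℕ)} (h : clsOK P Q cls = true) :
    ∀ c ∈ cls, short c = true ∨ allPairs P c = true := by
  induction cls with
  | nil => intro c hc; exact absurd hc List.not_mem_nil
  | cons x cs ih =>
    obtain ⟨h1, h2, h3⟩ := clsOK_parts h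
    intro c hc
    rcases List.mem_cons.mp hc with rfl | h4
    · exact h1
    · exact ih h3 c h4

/-- adjacent vertices of a class are in a common component -/
theorem clsOK_adj {n : ℕ} {G : SimpleGraph (Fin n)} {P Q : ℕ} (hG : Cons G P Q)
    {cls : List (List ℕ)} (h : clsOK P Q cls = true) :
    ∀ c ∈ cls, ∀ d ∈ cls, ∀ u v : Fin n, u.val ∈ c → v.val ∈ d → G.Adj u v → c = d := by
  induction cls with
  | nil => intro c hc; exact absurd hc List.not_mem_nil
  | cons x cs ih =>
    obtain ⟨h1, h2, h3⟩ := clsOK_parts h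
    intro c hc d hd u v hu hv huv
    rcases List.mem_cons.mp hc with h4 | h4 <;> rcases List.mem_cons.mp hd with h5 | h5
    · rw [h4, h5]
    · subst h4
      exact absurd huv (hG.2 u v (cross_spec (crossAll_spec h2 d h5) _ hu _ hv))
    · subst h5
      exact absurd huv.symm (hG.2 v u (cross_spec (crossAll_spec h2 c h4) _ hv _ hu))
    · exact ih h3 c h4 d h5 u v hu hv huv

theorem isCl_clsSet {n : ℕ} {G : SimpleGraph (Fin n)} {P Q : ℕ} (hG : Cons G P Q)
    {cls : List (List ℕ)} (h : clsOK P Q cls = true) : IsCl G (clsSet cls : Set (Fin n)) := by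
  rintro u ⟨c, hc, hu⟩ v ⟨d, hd, hv⟩ w ⟨e, he, hw⟩ huv hvw huw
  have h1 := clsOK_adj hG h c hc d hd u v hu hv huv
  have h2 := clsOK_adj hG h d hd e he v w hv hw hvw
  subst h1
  subst h2
  rcases clsOK_comp hG h c hc with h3 | h3
  · exfalso
    have h4 := short_spec h3
    have huv' : u.val ≠ v.val := fun h => huv.ne (Fin.ext h)
    have hvw' : v.val ≠ w.val := fun h => hvw.ne (Fin.ext h)
    have huw' : u.val ≠ w.val := fun h => huw (Fin.ext h)
    rcases c with _ | ⟨a, _ | ⟨b, _ | ⟨x, l⟩⟩⟩
    · simp at hu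
    · simp at hu hv; omega
    · simp at hu hv hw; omega
    · simp at h4
  · exact allPairs_spec hG h3 u w hu hw huw

/-! ## Masks and cover leaves -/

noncomputable def maskLL (l : List (List ℕ)) : ℕ :=
  List.rec 0 (fun a _ ih => Nat.lor ih (maskL a)) l

theorem maskLL_spec {l : List (List ℕ)} {k : ℕ} (h : bit (maskLL l) k = true) :
    ∃ c ∈ l, k ∈ c := by
  induction l with
  | nil =>
    exfalso
    have h1 : maskLL [] = 0 := rfl
    rw [h1, bit_eq, Nat.zero_testBit] at h
    exact Bool.noConfusion h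
  | cons a l ih =>
    have h1 : maskLL (a :: l) = Nat.lor (maskLL l) (maskL a) := rfl
    rw [h1, bit_lor, Bool.or_eq_true] at h
    rcases h with h | h
    · obtain ⟨c, hc, h2⟩ := ih h
      exact ⟨c, List.mem_cons_of_mem _ hc, h2⟩
    · exact ⟨a, List.mem_cons_self, maskL_spec h⟩

noncomputable def maskLLL (l : List (List (List ℕ))) : ℕ :=
  List.rec 0 (fun a _ ih => Nat.lor ih (maskLL a)) l

theorem maskLLL_spec {l : List (List (List ℕ))} {k : ℕ} (h : bit (maskLLL l) k = true) :
    ∃ c ∈ l, ∃ d ∈ c, k ∈ d := by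
  induction l with
  | nil =>
    exfalso
    have h1 : maskLLL [] = 0 := rfl
    rw [h1, bit_eq, Nat.zero_testBit] at h
    exact Bool.noConfusion h
  | cons a l ih =>
    have h1 : maskLLL (a :: l) = Nat.lor (maskLLL l) (maskLL a) := rfl
    rw [h1, bit_lor, Bool.or_eq_true] at h
    rcases h with h | h
    · obtain ⟨c, hc, h2⟩ := ih h
      exact ⟨c, List.mem_cons_of_mem _ hc, h2⟩
    · exact ⟨a, List.mem_cons_self, maskLL_spec h⟩

noncomputable def clssOK (P Q : ℕ) (l : List (List (List ℕ))) : Bool :=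
  List.rec true (fun c _ ih => cond (clsOK P Q c) ih false) l

theorem clssOK_spec {P Q : ℕ} {l : List (List (List ℕ))} (h : clssOK P Q l = true) :
    ∀ c ∈ l, clsOK P Q c = true := by
  induction l with
  | nil => intro c hc; exact absurd hc List.not_mem_nil
  | cons x cs ih =>
    have h1 : clssOK P Q (x :: cs) = cond (clsOK P Q x) (clssOK P Q cs) false := rfl
    rw [h1] at h
    rcases hb : clsOK P Q x with _ | _
    · rw [hb] at h; exact Bool.noConfusion h
    · rw [hb] at h
      intro c hc
      rcases List.mem_cons.mp hc with rfl | h2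
      · exact hb
      · exact ih h c h2

noncomputable def len {α : Type} (l : List α) : ℕ := List.rec 0 (fun _ _ ih => Nat.succ ih) l

theorem len_eq {α : Type} (l : List α) : len l = l.length := by
  induction l with
  | nil => rfl
  | cons a l ih =>
    have h1 : len (a :: l) = Nat.succ (len l) := rfl
    rw [h1, ih, List.length_cons]

/-- number of clusters known to suffice for `r` vertices -/
noncomputable def need (r : ℕ) : ℕ :=
  cond (Nat.beq r 0) 0 (cond (Nat.ble r 2) 1 (cond (Nat.ble r 5) 2 3))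

theorem need_mono {r s : ℕ} (h : r ≤ s) : need r ≤ need s := by
  unfold need
  have key : ∀ x y : ℕ, (Nat.beq x y = true ↔ x = y) := fun x y => by simp [Nat.beq_eq]
  have key2 : ∀ x y : ℕ, (Nat.ble x y = true ↔ x ≤ y) := fun x y => by simp [Nat.ble_eq]
  rcases h1 : Nat.beq r 0 with _ | _ <;> rcases h2 : Nat.beq s 0 with _ | _ <;>
    rcases h3 : Nat.ble r 2 with _ | _ <;> rcases h4 : Nat.ble s 2 with _ | _ <;>
    rcases h5 : Nat.ble r 5 with _ | _ <;> rcases h6 : Nat.ble s 5 with _ | _ <;>
    simp only [← Bool.not_eq_true, key, key2] at h1 h2 h3 h4 h5 h6 <;>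
    simp only [cond_true, cond_false] <;> omega

/-- `need` suffices for at most `b` vertices of a graph on `Fin n` -/
def Av (n b : ℕ) : Prop :=
  ∀ (G : SimpleGraph (Fin n)) (Y : Finset (Fin n)), Y.card ≤ b →
    Cov G (need Y.card) (Y : Set (Fin n))

noncomputable def okCov (n k b P Q : ℕ) (c : List (List (List ℕ))) (r : List ℕ) : Bool :=
  cond (Nat.beq (Nat.lor (maskLLL c) (maskL r)) (Nat.sub (Nat.shiftLeft 1 n) 1))
    (cond (clssOK P Q c)
      (cond (Nat.ble (len r) b) (Nat.ble (Nat.add (len c) (need (len r))) k) false) false) false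

theorem cov_classes {n : ℕ} {G : SimpleGraph (Fin n)} {P Q : ℕ} (hG : Cons G P Q)
    (c : List (List (List ℕ))) (h : ∀ x ∈ c, clsOK P Q x = true) (Y : Set (Fin n)) (k : ℕ)
    (hY : Cov G k Y) (S : Set (Fin n))
    (hS : ∀ v ∈ S, v ∈ Y ∨ ∃ x ∈ c, ∃ d ∈ x, v.val ∈ d) : Cov G (c.length + k) S := by
  induction c generalizing S with
  | nil =>
    have : S ⊆ Y := fun v hv => (hS v hv).resolve_right (by
      rintro ⟨x, hx, _⟩; exact absurd hx List.not_mem_nil)
    simpa using hY.mono this
  | cons x c ih =>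
    have h1 := isCl_clsSet hG (h x List.mem_cons_self)
    have h2 := ih (fun y hy => h y (List.mem_cons_of_mem _ hy)) (S \ clsSet x) (by
      intro v hv
      rcases hS v hv.1 with h3 | ⟨y, hy, d, hd, hvd⟩
      · exact Or.inl h3
      · rcases List.mem_cons.mp hy with rfl | h4
        · exact absurd (⟨d, hd, hvd⟩ : v ∈ clsSet y) hv.2
        · exact Or.inr ⟨y, h4, d, hd, hvd⟩)
    have : (x :: c).length + k = (c.length + k) + 1 := by simp; omega
    rw [this]
    exact ⟨_, h1, h2⟩

theorem okCov_sound {n k b P Q : ℕ} (hav : Av n b) {c : List (List (List ℕ))} {r : List ℕ}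
    (h : okCov n k b P Q c r = true) {G : SimpleGraph (Fin n)} (hG : Cons G P Q) :
    Cov G k Set.univ := by
  classical
  have hA : Nat.lor (maskLLL c) (maskL r) = 2 ^ n - 1 ∧ clssOK P Q c = true ∧ len r ≤ b ∧
      len c + need (len r) ≤ k := by
    unfold okCov at h
    rcases h1 : Nat.beq (Nat.lor (maskLLL c) (maskL r)) (Nat.sub (Nat.shiftLeft 1 n) 1) with
      _ | _
    · rw [h1] at h; exact Bool.noConfusion h
    rw [h1, cond_true] at h
    rcases h2 : clssOK P Q c with _ | _
    · rw [h2] at h; exact Bool.noConfusion h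
    rw [h2, cond_true] at h
    rcases h3 : Nat.ble (len r) b with _ | _
    · rw [h3] at h; exact Bool.noConfusion h
    rw [h3, cond_true] at h
    refine ⟨?_, rfl, Nat.le_of_ble_eq_true h3, Nat.le_of_ble_eq_true h⟩
    have h4 := Nat.eq_of_beq_eq_true h1
    rw [h4]
    have h5 : Nat.shiftLeft 1 n = 1 <<< n := rfl
    have h6 : Nat.sub (Nat.shiftLeft 1 n) 1 = Nat.shiftLeft 1 n - 1 := rfl
    rw [h6, h5, Nat.one_shiftLeft]
  obtain ⟨h1, h2, h3, h4⟩ := hA
  rw [len_eq] at h3 h4
  rw [len_eq] at h4
  set Y : Finset (Fin n) := Finset.univ.filter (fun v => v.val ∈ r) with hY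
  have hYc : Y.card ≤ r.length := by
    calc Y.card = (Y.image (fun v => v.val)).card :=
          (Finset.card_image_of_injective _ Fin.val_injective).symm
      _ ≤ r.toFinset.card := by
          apply Finset.card_le_card
          intro a ha
          rw [Finset.mem_image] at ha
          obtain ⟨v, hv, rfl⟩ := ha
          rw [hY, Finset.mem_filter] at hv
          exact List.mem_toFinset.mpr hv.2
      _ ≤ r.length := List.toFinset_card_le r
  have hcov : Cov G (need r.length) (Y : Set (Fin n)) :=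
    (hav G Y (hYc.trans h3)).le (need_mono hYc)
  refine (cov_classes hG c (clssOK_spec h2) _ _ hcov Set.univ ?_).le h4
  intro v _
  have h5 : bit (Nat.lor (maskLLL c) (maskL r)) v.val = true := by
    rw [h1, bit_eq, Nat.testBit_two_pow_sub_one]
    simp
  rw [bit_lor, Bool.or_eq_true] at h5
  rcases h5 with h5 | h5
  · exact Or.inr (maskLLL_spec h5)
  · refine Or.inl ?_
    simp only [hY, Finset.coe_filter, Finset.mem_univ, true_and, Set.mem_ofPred_eq]
    exact maskL_spec h5

end Pool.Agent.H48.Sub
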