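import Pool.Agent.H48.Sub.D1
import Pool.Agent.H48.Sub.D2
import Pool.Agent.H48.Sub.D3
import Pool.Agent.H48.Sub.D4
import Pool.Agent.H48.Sub.D5
import Pool.Agent.H48.Sub.D6
import Pool.Agent.H48.Sub.D7
import Pool.Agent.H48.Sub.D8
import Pool.Agent.H48.Sub.D9

set_option autoImplicit false

namespace Pool.Agent.H48.Sub

/-! ## General lemmas -/

theorem Cov.union {V : Type*} {G : SimpleGraph V} {a b : ℕ} {A B : Set V}
    (hA : Cov G a A) (hB : Cov G b B) : Cov G (a + b) (A ∪ B) := by
  induction a generalizing A with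
  | zero =>
    have h : A = ∅ := hA
    subst h
    simpa using hB
  | succ a ih =>
    obtain ⟨X, hX, h2⟩ := hA
    have h3 := ih h2
    rw [Nat.add_right_comm]
    refine ⟨X, hX, h3.mono ?_⟩
    rintro x ⟨hx | hx, hxX⟩
    · exact Or.inl ⟨hx, hxX⟩
    · exact Or.inr hx

theorem Has.comap {V W : Type*} {G : SimpleGraph V} {f : W → V} (hf : Function.Injective f)
    {m : ℕ} {p : List (ℕ × ℕ × Bool)} (h : Has (G.comap f) m p) :
    ∃ g : Fin m → V, Function.Injective g ∧ Set.range g ⊆ Set.range f ∧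
      ∀ x ∈ p, ∀ (hi : x.1 < m) (hj : x.2.1 < m),
        (G.Adj (g ⟨x.1, hi⟩) (g ⟨x.2.1, hj⟩) ↔ x.2.2 = true) := by
  obtain ⟨g, hg, hp⟩ := h
  refine ⟨f ∘ g, hf.comp hg, Set.range_comp_subset_range g f, hp⟩

theorem Has.of_comap {V W : Type*} {G : SimpleGraph V} {f : W → V}
    (hf : Function.Injective f) {m : ℕ} {p : List (ℕ × ℕ × Bool)}
    (h : Has (G.comap f) m p) : Has G m p := by
  obtain ⟨g, hg, _, hp⟩ := h.comap hf
  exact ⟨g, hg, hp⟩

theorem Has.mono {V : Type*} {G : SimpleGraph V} {m : ℕ} {p q : List (ℕ × ℕ × Bool)}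
    (h : Has G m p) (hpq : ∀ x ∈ q, x ∈ p) : Has G m q := by
  obtain ⟨g, hg, hp⟩ := h
  exact ⟨g, hg, fun x hx => hp x (hpq x hx)⟩

theorem av_zero (n : ℕ) : Av n 0 := by
  intro G Y hY
  have h : Y = ∅ := Finset.card_eq_zero.mp (Nat.le_zero.mp hY)
  subst h
  simp [need, Cov]

/-- extension of a pattern by one vertex with constant adjacency -/
def extP (m : ℕ) (b : Bool) (p : List (ℕ × ℕ × Bool)) : List (ℕ × ℕ × Bool) :=
  p ++ (List.range m).map (fun i => (i, m, b))

theorem has_ext {V W : Type*} {G : SimpleGraph V} {f : W → V} (hf : Function.Injective f)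
    {m : ℕ} {p : List (ℕ × ℕ × Bool)} (h : Has (G.comap f) m p) (b : Bool) (v : V)
    (hv : ∀ w, f w ≠ v) (hb : ∀ w, (G.Adj (f w) v ↔ b = true))
    (hp : ∀ x ∈ p, x.1 < m ∧ x.2.1 < m) : Has G (m + 1) (extP m b p) := by
  obtain ⟨g, hg, hgp⟩ := h
  refine ⟨Fin.snoc (α := fun _ => V) (f ∘ g) v, ?_, ?_⟩
  · rw [Fin.snoc_injective_iff]
    refine ⟨hf.comp hg, ?_⟩
    rintro ⟨i, hi⟩
    exact hv _ hi
  · intro x hx hi hj
    unfold extP at hx
    rcases List.mem_append.mp hx with h1 | h1
    · obtain ⟨h2, h3⟩ := hp x h1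
      have e1 : (⟨x.1, hi⟩ : Fin (m + 1)) = Fin.castSucc ⟨x.1, h2⟩ := rfl
      have e2 : (⟨x.2.1, hj⟩ : Fin (m + 1)) = Fin.castSucc ⟨x.2.1, h3⟩ := rfl
      rw [e1, e2, Fin.snoc_castSucc, Fin.snoc_castSucc]
      exact hgp x h1 h2 h3
    · obtain ⟨i, hi', rfl⟩ := List.mem_map.mp h1
      have h2 : i < m := List.mem_range.mp hi'
      have e1 : (⟨i, hi⟩ : Fin (m + 1)) = Fin.castSucc ⟨i, h2⟩ := rfl
      have e2 : (⟨m, hj⟩ : Fin (m + 1)) = Fin.last m := rfl
      rw [e1, e2, Fin.snoc_castSucc, Fin.snoc_last]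
      exact hb _

/-- every graph on `n` vertices is covered by `k` clusters -/
def CovN (n k : ℕ) : Prop := ∀ G : SimpleGraph (Fin n), Cov G k Set.univ

theorem CovN.use {n k : ℕ} (h : CovN n k) {V : Type*} [Fintype V] (hV : n ≤ Fintype.card V)
    (G : SimpleGraph V) (Y : Finset V) (hY : Y.card ≤ n) : Cov G k (Y : Set V) := by
  classical
  obtain ⟨Z, hYZ, hZ⟩ := Finset.exists_superset_card_eq hY hV
  let e : Fin n ≃ Z := (Fintype.equivFinOfCardEq (by rw [Fintype.card_coe]; exact hZ)).symm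
  have h1 := (h (G.comap (fun i => (e i : V)))).image G (fun i => (e i : V))
    (Subtype.val_injective.comp e.injective)
  refine h1.mono (fun y hy => ?_)
  refine ⟨e.symm ⟨y, hYZ hy⟩, Set.mem_univ _, ?_⟩
  simp

theorem covN_two : CovN 2 1 := by
  intro G
  refine ⟨Set.univ, ?_, ?_⟩
  · intro u _ v _ w _ h1 h2 h3
    exfalso
    have h4 := h1.ne
    have h5 := h2.ne
    have h6 := u.isLt
    have h7 := v.isLt
    have h8 := w.isLt
    have h4' : u.val ≠ v.val := fun h => h4 (Fin.ext h)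
    have h5' : v.val ≠ w.val := fun h => h5 (Fin.ext h)
    have h3' : u.val ≠ w.val := fun h => h3 (Fin.ext h)
    omega
  · simp [Cov]

/-- a pattern that forces a cluster -/
theorem cl_of_has {m : ℕ} (hm : m ≤ 16) {p : List (ℕ × ℕ × Bool)}
    (hrun : ∃ f c : ℕ, runL m 1 0 [] [] f c p 0 0 = true) {V : Type*} {G : SimpleGraph V}
    {g : Fin m → V} (hg : Function.Injective g)
    (hp : ∀ x ∈ p, ∀ (hi : x.1 < m) (hj : x.2.1 < m),
      (G.Adj (g ⟨x.1, hi⟩) (g ⟨x.2.1, hj⟩) ↔ x.2.2 = true)) :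
    Cov G 1 (Set.range g) := by
  obtain ⟨f, c, hr⟩ := hrun
  rcases runL_sound hm (av_zero m) f c p 0 0 hr (G.comap g) (cons_zero _) hp with h | h | h
  · have := h.image G g hg
    rwa [Set.image_univ] at this
  · obtain ⟨x, hx, _⟩ := h
    exact absurd hx List.not_mem_nil
  · obtain ⟨x, hx, _⟩ := h
    exact absurd hx List.not_mem_nil

/-- The block step. -/
theorem block_step {n m k b : ℕ} (hnm : n + m ≤ 16) (hav : Av (n + m) b)
    {p : List (ℕ × ℕ × Bool)} (hcl : ∃ f c : ℕ, runL m 1 0 [] [] f c p 0 0 = true)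
    {tgs : List ℕ}
    (hbase : ∀ H : SimpleGraph (Fin n), Cov H k Set.univ ∨ ∃ T ∈ tgs, Iso H T)
    {pats : List (ℕ × List (ℕ × ℕ × Bool))} {tg' : List ℕ}
    (hrun : ∀ T ∈ tgs, ∃ f c : ℕ, runB n m (k + 1) b pats tg' T p f c = true)
    (G : SimpleGraph (Fin (n + m))) (hG : Has G m p) :
    Cov G (k + 1) Set.univ ∨ (∃ x ∈ pats, Has G x.1 x.2) ∨ (∃ T ∈ tg', Iso G T) := by
  obtain ⟨g, hg, hp⟩ := hG
  obtain ⟨e, he⟩ := exists_equiv (Fintype.card_fin (n + m)) g hg
  have hp' : ∀ x ∈ p, ∀ (hi : x.1 < m) (hj : x.2.1 < m),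
      (G.Adj (e (Fin.natAdd n ⟨x.1, hi⟩)) (e (Fin.natAdd n ⟨x.2.1, hj⟩)) ↔
        x.2.2 = true) := by
    intro x hx hi hj
    rw [he, he]
    exact hp x hx hi hj
  rcases hbase (G.comap (fun i : Fin n => e (Fin.castAdd m i))) with h1 | ⟨T, hT, h1⟩
  · left
    have hinj : Function.Injective (fun i : Fin n => e (Fin.castAdd m i)) :=
      e.injective.comp (Fin.castAdd_injective n m)
    have h2 := h1.image G _ hinj
    have h3 := cl_of_has (by omega) hcl hg hp
    refine (h2.union h3).mono ?_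
    intro v _
    obtain ⟨i, rfl⟩ := e.surjective v
    refine Fin.addCases (fun i => ?_) (fun j => ?_) i
    · exact Or.inl ⟨i, Set.mem_univ _, rfl⟩
    · exact Or.inr ⟨j, (he j).symm⟩
  · obtain ⟨e', hB⟩ := exists_based G e hp' h1
    obtain ⟨f, c, hr⟩ := hrun T hT
    rcases runB_sound hnm hav hr G e' hB with h2 | ⟨x, hx, h2⟩ | ⟨T', hT', s, hs⟩
    · left
      have h3 := h2.image G _ e'.injective
      rwa [Set.image_univ, e'.surjective.range_eq] at h3
    · exact Or.inr (Or.inl ⟨x, hx, h2.of_comap e'.injective⟩)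
    · exact Or.inr (Or.inr ⟨T', hT', s.trans e', hs⟩)

/-! ## Five vertices -/

theorem has3_five (G : SimpleGraph (Fin 5)) : Has G 3 pK3 ∨ Has G 3 pI3 := by
  obtain ⟨f, c, hr⟩ := tree_F5
  rcases runL_sound (by norm_num) (av_zero 5) f c [] 0 0 hr G (cons_zero _)
    (fun x hx => absurd hx List.not_mem_nil) with h | ⟨x, hx, h⟩ | ⟨x, hx, _⟩
  · exact absurd (h : (Set.univ : Set (Fin 5)) = ∅) Set.univ_nonempty.ne_empty
  · simp only [List.mem_cons, List.not_mem_nil, or_false] at hx
    rcases hx with rfl | rfl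
    · exact Or.inl h
    · exact Or.inr h
  · exact absurd hx List.not_mem_nil

theorem has3 {V : Type*} [Fintype V] (hV : 5 ≤ Fintype.card V) (G : SimpleGraph V) :
    Has G 3 pK3 ∨ Has G 3 pI3 := by
  obtain ⟨f⟩ : Nonempty (Fin 5 ↪ V) := by
    apply Function.Embedding.nonempty_of_card_le
    rwa [Fintype.card_fin]
  rcases has3_five (G.comap f) with h | h
  · exact Or.inl (h.of_comap f.injective)
  · exact Or.inr (h.of_comap f.injective)

theorem covN_add {n m k : ℕ} (h : CovN n k) {p : List (ℕ × ℕ × Bool)} (hm : m ≤ 16)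
    (hcl : ∃ f c : ℕ, runL m 1 0 [] [] f c p 0 0 = true)
    (G : SimpleGraph (Fin (n + m))) (hG : Has G m p) : Cov G (k + 1) Set.univ := by
  obtain ⟨g, hg, hp⟩ := hG
  obtain ⟨e, he⟩ := exists_equiv (Fintype.card_fin (n + m)) g hg
  have hinj : Function.Injective (fun i : Fin n => e (Fin.castAdd m i)) :=
      e.injective.comp (Fin.castAdd_injective n m)
  have h2 := (h (G.comap (fun i : Fin n => e (Fin.castAdd m i)))).image G _ hinj
  have h3 := cl_of_has hm hcl hg hp
  refine (h2.union h3).mono ?_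
  intro v _
  obtain ⟨i, rfl⟩ := e.surjective v
  refine Fin.addCases (fun i => ?_) (fun j => ?_) i
  · exact Or.inl ⟨i, Set.mem_univ _, rfl⟩
  · exact Or.inr ⟨j, (he j).symm⟩

theorem covN_five : CovN 5 2 := by
  intro G
  rcases has3_five G with h | h
  · exact covN_add (n := 2) (m := 3) covN_two (by norm_num) cl_pK3 G h
  · exact covN_add (n := 2) (m := 3) covN_two (by norm_num) cl_pI3 G h

theorem av_two {n : ℕ} (hn : 2 ≤ n) : Av n 2 := by
  intro G Y hY
  rcases Nat.eq_zero_or_pos Y.card with h | h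
  · have h' : Y = ∅ := Finset.card_eq_zero.mp h
    subst h'
    simp [need, Cov]
  · have h1 : need Y.card = 1 := by
      have : Y.card = 1 ∨ Y.card = 2 := by omega
      rcases this with h2 | h2 <;> rw [h2] <;> rfl
    rw [h1]
    exact covN_two.use (by rwa [Fintype.card_fin]) G Y hY

theorem av_five {n : ℕ} (hn : 5 ≤ n) : Av n 5 := by
  intro G Y hY
  rcases Nat.lt_or_ge 2 Y.card with h | h
  · have h1 : need Y.card = 2 := by
      have : Y.card = 3 ∨ Y.card = 4 ∨ Y.card = 5 := by omega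
      rcases this with h2 | h2 | h2 <;> rw [h2] <;> rfl
    rw [h1]
    exact covN_five.use (by rwa [Fintype.card_fin]) G Y hY
  · exact av_two (by omega) G Y h

/-! ## Six vertices -/

theorem six (G : SimpleGraph (Fin 6)) : Cov G 2 Set.univ ∨ ∃ T ∈ LR, Iso G T := by
  obtain ⟨f, c, hr⟩ := tree_F6
  rcases runL_sound (by norm_num) (av_two (by norm_num)) f c [] 0 0 hr G (cons_zero _)
    (fun x hx => absurd hx List.not_mem_nil) with h | ⟨x, hx, h⟩ | h
  · exact Or.inl h
  · exact absurd hx List.not_mem_nil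
  · exact Or.inr h

/-! ## Nine vertices -/

theorem covN_nine : CovN 9 3 := by
  intro G
  have key : ∀ p : List (ℕ × ℕ × Bool), (∃ f c : ℕ, runL 3 1 0 [] [] f c p 0 0 = true) →
      (∀ T ∈ LR, ∃ f c : ℕ, runB 6 3 3 5 [] [] T p f c = true) → Has G 3 p →
      Cov G 3 Set.univ := by
    intro p h1 h2 h3
    rcases block_step (n := 6) (m := 3) (by norm_num) (av_five (by norm_num)) h1 six h2 G h3
      with h | ⟨x, hx, _⟩ | ⟨x, hx, _⟩
    · exact h
    · exact absurd hx List.not_mem_nil
    · exact absurd hx List.not_mem_nil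
  rcases has3 (by rw [Fintype.card_fin]; norm_num) G with h | h
  · refine key pK3 cl_pK3 ?_ h
    simp only [LR, List.forall_mem_cons, List.not_mem_nil, false_imp_iff, implies_true,
      and_true]
    exact ⟨tree_T9_0_K, tree_T9_1_K, tree_T9_2_K⟩
  · refine key pI3 cl_pI3 ?_ h
    simp only [LR, List.forall_mem_cons, List.not_mem_nil, false_imp_iff, implies_true,
      and_true]
    exact ⟨tree_T9_0_I, tree_T9_1_I, tree_T9_2_I⟩

theorem av_nine {n : ℕ} (hn : 9 ≤ n) : Av n 9 := by
  intro G Y hY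
  rcases Nat.lt_or_ge 5 Y.card with h | h
  · have h1 : need Y.card = 3 := by
      have : Y.card = 6 ∨ Y.card = 7 ∨ Y.card = 8 ∨ Y.card = 9 := by omega
      rcases this with h2 | h2 | h2 | h2 <;> rw [h2] <;> rfl
    rw [h1]
    exact covN_nine.use (by rwa [Fintype.card_fin]) G Y hY
  · exact av_five (by omega) G Y h

/-! ## Ten vertices: there is a four-vertex cluster -/

theorem runW {p : List (ℕ × ℕ × Bool)}
    (hr : ∃ f c : ℕ, runL 10 0 0 cl4 [] f c (shiftL 4 p []) 0 0 = true)
    (G : SimpleGraph (Fin 10)) (hG : Has G 6 p) : ∃ x ∈ cl4, Has G x.1 x.2 := by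
  obtain ⟨g, hg, hp⟩ := hG
  obtain ⟨e, he⟩ := exists_equiv (n := 4) (m := 6) (Fintype.card_fin 10) g hg
  obtain ⟨f, c, hr⟩ := hr
  rcases runL_sound (by norm_num) (av_zero 10) f c _ 0 0 hr (G.comap e) (cons_zero _) (by
    intro x hx hi hj
    rcases shiftL_spec x hx with h1 | ⟨y, hy, rfl⟩
    · exact absurd h1 List.not_mem_nil
    · have hi' : y.1 < 6 := by
        have : 4 + y.1 < 10 := hi
        omega
      have hj' : y.2.1 < 6 := by
        have : 4 + y.2.1 < 10 := hj
        omega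
      have h2 := hp y hy hi' hj'
      rw [← he, ← he] at h2
      exact h2) with h | ⟨x, hx, h⟩ | ⟨x, hx, _⟩
  · exact absurd (h : (Set.univ : Set (Fin 10)) = ∅) Set.univ_nonempty.ne_empty
  · exact ⟨x, hx, h.of_comap e.injective⟩
  · exact absurd hx List.not_mem_nil

theorem ten_cl4 (G : SimpleGraph (Fin 10)) : ∃ x ∈ cl4, Has G x.1 x.2 := by
  classical
  set N : Finset (Fin 10) := Finset.univ.filter (fun w => G.Adj w 0) with hN
  set M : Finset (Fin 10) := Finset.univ.filter (fun w => w ≠ 0 ∧ ¬ G.Adj w 0) with hM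
  have hcard : N.card + M.card = 9 := by
    have h1 : Disjoint N M := by
      rw [Finset.disjoint_left]
      intro a ha hb
      rw [hN, Finset.mem_filter] at ha
      rw [hM, Finset.mem_filter] at hb
      exact hb.2.2 ha.2
    rw [← Finset.card_union_of_disjoint h1]
    have h2 : N ∪ M = Finset.univ.erase 0 := by
      ext a
      simp only [hN, hM, Finset.mem_union, Finset.mem_filter, Finset.mem_univ, true_and,
        Finset.mem_erase, and_true]
      constructor
      · rintro (h | h)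
        · exact h.ne
        · exact h.1
      · intro h
        by_cases h3 : G.Adj a 0
        · exact Or.inl h3
        · exact Or.inr ⟨h, h3⟩
    rw [h2, Finset.card_erase_of_mem (Finset.mem_univ _)]
    simp
  have emb : ∀ S : Finset (Fin 10), 5 ≤ S.card → ∃ f : Fin 5 → Fin 10,
      Function.Injective f ∧ ∀ i, f i ∈ S := by
    intro S hS
    obtain ⟨f⟩ : Nonempty (Fin 5 ↪ S) := by
      apply Function.Embedding.nonempty_of_card_le
      rwa [Fintype.card_fin, Fintype.card_coe]
    exact ⟨fun i => (f i : Fin 10), Subtype.val_injective.comp f.injective,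
      fun i => (f i).2⟩
  rcases Nat.lt_or_ge 4 M.card with h | h
  · obtain ⟨f, hf, hfM⟩ := emb M h
    have hv : ∀ w, f w ≠ 0 := fun w => (Finset.mem_filter.mp (hfM w)).2.1
    have hb : ∀ w, (G.Adj (f w) 0 ↔ false = true) := by
      intro w
      have := (Finset.mem_filter.mp (hfM w)).2.2
      simp [this]
    rcases has3_five (G.comap f) with h1 | h1
    · refine ⟨(4, p31), by simp [cl4], ?_⟩
      refine (has_ext hf h1 false 0 hv hb (by decide)).mono (by decide)
    · refine ⟨(4, p22a), by simp [cl4], ?_⟩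
      refine (has_ext hf h1 false 0 hv hb (by decide)).mono (by decide)
  · obtain ⟨f, hf, hfN⟩ := emb N (by omega)
    have hv : ∀ w, f w ≠ 0 := fun w => (Finset.mem_filter.mp (hfN w)).2.ne
    have hb : ∀ w, (G.Adj (f w) 0 ↔ true = true) := by
      intro w
      have := (Finset.mem_filter.mp (hfN w)).2
      simp [this]
    obtain ⟨f', c, hr⟩ := tree_N5
    rcases runL_sound (by norm_num) (av_zero 5) f' c [] 0 0 hr (G.comap f) (cons_zero _)
      (fun x hx => absurd hx List.not_mem_nil) with h1 | ⟨x, hx, h1⟩ | ⟨x, hx, _⟩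
    · exact absurd (h1 : (Set.univ : Set (Fin 5)) = ∅) Set.univ_nonempty.ne_empty
    · simp only [List.mem_cons, List.not_mem_nil, or_false] at hx
      rcases hx with rfl | rfl | rfl | rfl | rfl | rfl | rfl | rfl
      · exact ⟨(4, p22a), by simp [cl4], h1.of_comap hf⟩
      · exact ⟨(4, p31), by simp [cl4], h1.of_comap hf⟩
      · exact ⟨(4, p4), by simp [cl4], h1.of_comap hf⟩
      · refine ⟨(4, p4), by simp [cl4], ?_⟩
        refine (has_ext hf h1 true 0 hv hb (by decide)).mono (by decide)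
      · exact runW tree_C10_0 G
          ((has_ext hf h1 true 0 hv hb (by decide)).mono (by decide))
      · exact runW tree_C10_1 G
          ((has_ext hf h1 true 0 hv hb (by decide)).mono (by decide))
      · exact runW tree_C10_2 G
          ((has_ext hf h1 true 0 hv hb (by decide)).mono (by decide))
      · exact runW tree_C10_3 G
          ((has_ext hf h1 true 0 hv hb (by decide)).mono (by decide))
    · exact absurd hx List.not_mem_nil

/-! ## Ten vertices: classification -/

theorem has_p22 {G : SimpleGraph (Fin 10)} (h : Has G 4 p22a) : Has G 4 p211 ∨ Has G 4 p22 := by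
  obtain ⟨g, hg, hp⟩ := h
  have e02 := hp (0, 2, false) (by simp [p22a]) (by norm_num) (by norm_num)
  have e03 := hp (0, 3, false) (by simp [p22a]) (by norm_num) (by norm_num)
  have e12 := hp (1, 2, false) (by simp [p22a]) (by norm_num) (by norm_num)
  have e13 := hp (1, 3, false) (by simp [p22a]) (by norm_num) (by norm_num)
  by_cases h1 : G.Adj (g 0) (g 1)
  · by_cases h2 : G.Adj (g 2) (g 3)
    · right
      refine ⟨g, hg, ?_⟩
      intro x hx hi hj
      simp only [p22, List.mem_cons, List.not_mem_nil, or_false] at hx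
      rcases hx with rfl | rfl | rfl | rfl | rfl | rfl
      · exact iff_of_true h1 rfl
      · exact iff_of_true h2 rfl
      · exact e02
      · exact e03
      · exact e12
      · exact e13
    · left
      refine ⟨g, hg, ?_⟩
      intro x hx hi hj
      simp only [p211, List.mem_cons, List.not_mem_nil, or_false] at hx
      rcases hx with rfl | rfl | rfl | rfl | rfl
      · exact e02
      · exact e03
      · exact e12
      · exact e13
      · exact iff_of_false h2 (by decide)
  · left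
    refine ⟨fun i => g (![2, 3, 0, 1] i), hg.comp (by decide), ?_⟩
    intro x hx hi hj
    simp only [p211, List.mem_cons, List.not_mem_nil, or_false] at hx
    rcases hx with rfl | rfl | rfl | rfl | rfl
    · exact (G.adj_comm _ _).trans e02
    · exact (G.adj_comm _ _).trans e12
    · exact (G.adj_comm _ _).trans e03
    · exact (G.adj_comm _ _).trans e13
    · exact iff_of_false h1 (by decide)

theorem ten (G : SimpleGraph (Fin 10)) : Cov G 3 Set.univ ∨ ∃ T ∈ LT, Iso G T := by
  by_cases h211 : Has G 4 p211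
  · rcases block_step (n := 6) (m := 4) (by norm_num) (av_five (by norm_num)) cl_p211 six
      (pats := []) (tg' := LT) (by
        simp only [LR, List.forall_mem_cons, List.not_mem_nil, false_imp_iff, implies_true,
          and_true]
        exact ⟨tree_F10_0_211, tree_F10_1_211, tree_F10_2_211⟩) G h211
      with h | ⟨x, hx, _⟩ | h
    · exact Or.inl h
    · exact absurd hx List.not_mem_nil
    · exact Or.inr h
  · left
    have key : ∀ p : List (ℕ × ℕ × Bool), (∃ f c : ℕ, runL 4 1 0 [] [] f c p 0 0 = true) →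
        (∀ T ∈ LR, ∃ f c : ℕ, runB 6 4 3 5 [(4, p211)] [] T p f c = true) → Has G 4 p →
        Cov G 3 Set.univ := by
      intro p h1 h2 h3
      rcases block_step (n := 6) (m := 4) (by norm_num) (av_five (by norm_num)) h1 six h2 G h3
        with h | ⟨x, hx, h⟩ | ⟨x, hx, _⟩
      · exact h
      · simp only [List.mem_cons, List.not_mem_nil, or_false] at hx
        subst hx
        exact absurd h h211
      · exact absurd hx List.not_mem_nil
    obtain ⟨x, hx, h⟩ := ten_cl4 G
    simp only [cl4, List.mem_cons, List.not_mem_nil, or_false] at hx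
    rcases hx with rfl | rfl | rfl
    · rcases has_p22 h with h1 | h1
      · exact absurd h1 h211
      · refine key p22 cl_p22 ?_ h1
        simp only [LR, List.forall_mem_cons, List.not_mem_nil, false_imp_iff, implies_true,
          and_true]
        exact ⟨tree_F10_0_22, tree_F10_1_22, tree_F10_2_22⟩
    · refine key p31 cl_p31 ?_ h
      simp only [LR, List.forall_mem_cons, List.not_mem_nil, false_imp_iff, implies_true,
        and_true]
      exact ⟨tree_F10_0_31, tree_F10_1_31, tree_F10_2_31⟩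
    · refine key p4 cl_p4 ?_ h
      simp only [LR, List.forall_mem_cons, List.not_mem_nil, false_imp_iff, implies_true,
        and_true]
      exact ⟨tree_F10_0_4, tree_F10_1_4, tree_F10_2_4⟩

/-! ## Fourteen vertices -/

theorem has_T : ∀ T ∈ LT, ∃ f c : ℕ,
    runL 10 0 0 [(4, pI4), (4, pL)] [] f c (baseL 10 T) 0 0 = true := by
  simp only [LT, List.forall_mem_cons, List.not_mem_nil, false_imp_iff, implies_true,
    and_true]
  exact ⟨has_T0, has_T1, has_T2, has_T3, has_T4, has_T5, has_T6, has_T7, has_T8, has_T9, has_T10, 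
    has_T11, has_T12, has_T13, has_T14, has_T15, has_T16, has_T17, has_T18, has_T19, has_T20, 
    has_T21, has_T22, has_T23, has_T24, has_T25, has_T26, has_T27, has_T28, has_T29, has_T30, 
    has_T31, has_T32, has_T33, has_T34⟩

theorem tree_Z0 : ∀ T ∈ LT, ∃ f c : ℕ, runB 10 4 4 9 [] [] T pI4 f c = true := by
  simp only [LT, List.forall_mem_cons, List.not_mem_nil, false_imp_iff, implies_true,
    and_true]
  exact ⟨tree_Z0_0, tree_Z0_1, tree_Z0_2, tree_Z0_3, tree_Z0_4, tree_Z0_5, tree_Z0_6, tree_Z0_7, 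
    tree_Z0_8, tree_Z0_9, tree_Z0_10, tree_Z0_11, tree_Z0_12, tree_Z0_13, tree_Z0_14, 
    tree_Z0_15, tree_Z0_16, tree_Z0_17, tree_Z0_18, tree_Z0_19, tree_Z0_20, tree_Z0_21, 
    tree_Z0_22, tree_Z0_23, tree_Z0_24, tree_Z0_25, tree_Z0_26, tree_Z0_27, tree_Z0_28, 
    tree_Z0_29, tree_Z0_30, tree_Z0_31, tree_Z0_32, tree_Z0_33, tree_Z0_34⟩

theorem tree_Z4 : ∀ T ∈ LT, ∃ f c : ℕ, runB 10 4 4 9 [(4, pI4)] [] T pL f c = true := by
  simp only [LT, List.forall_mem_cons, List.not_mem_nil, false_imp_iff, implies_true,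
    and_true]
  exact ⟨tree_Z4_0, tree_Z4_1, tree_Z4_2, tree_Z4_3, tree_Z4_4, tree_Z4_5, tree_Z4_6, tree_Z4_7, 
    tree_Z4_8, tree_Z4_9, tree_Z4_10, tree_Z4_11, tree_Z4_12, tree_Z4_13, tree_Z4_14, 
    tree_Z4_15, tree_Z4_16, tree_Z4_17, tree_Z4_18, tree_Z4_19, tree_Z4_20, tree_Z4_21, 
    tree_Z4_22, tree_Z4_23, tree_Z4_24, tree_Z4_25, tree_Z4_26, tree_Z4_27, tree_Z4_28, 
    tree_Z4_29, tree_Z4_30, tree_Z4_31, tree_Z4_32, tree_Z4_33, tree_Z4_34⟩

theorem has_of_iso {G : SimpleGraph (Fin 10)} {T : ℕ} (hT : T ∈ LT) (h : Iso G T) :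
    Has G 4 pI4 ∨ Has G 4 pL := by
  obtain ⟨e, he⟩ := h
  obtain ⟨f, c, hr⟩ := has_T T hT
  rcases runL_sound (by norm_num) (av_zero 10) f c _ 0 0 hr (G.comap e) (cons_zero _) (by
    intro x hx hi hj
    obtain ⟨h2, h3, h4⟩ := baseL_spec x hx
    rw [h4]
    exact he ⟨x.1, hi⟩ ⟨x.2.1, hj⟩ (by
      intro h; exact absurd (congrArg Fin.val h) (by simp; omega)))
    with h | ⟨x, hx, h⟩ | ⟨x, hx, _⟩
  · exact absurd (h : (Set.univ : Set (Fin 10)) = ∅) Set.univ_nonempty.ne_empty
  · simp only [List.mem_cons, List.not_mem_nil, or_false] at hx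
    rcases hx with rfl | rfl
    · exact Or.inl (h.of_comap e.injective)
    · exact Or.inr (h.of_comap e.injective)
  · exact absurd hx List.not_mem_nil

theorem covN_fourteen : CovN 14 4 := by
  intro G
  have hav : Av (10 + 4) 9 := av_nine (by norm_num)
  by_cases hI : Has G 4 pI4
  · rcases block_step (n := 10) (m := 4) (by norm_num) hav cl_pI4 ten tree_Z0 G hI
      with h | ⟨x, hx, _⟩ | ⟨x, hx, _⟩
    · exact h
    · exact absurd hx List.not_mem_nil
    · exact absurd hx List.not_mem_nil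
  · -- a four-vertex cluster
    have hinj : Function.Injective (fun i : Fin 10 => (Fin.castAdd 4 i : Fin (10 + 4))) :=
      Fin.castAdd_injective 10 4
    obtain ⟨x, hx, h1⟩ := ten_cl4 (G.comap (fun i : Fin 10 => (Fin.castAdd 4 i : Fin (10 + 4))))
    have h2 := h1.of_comap hinj
    have hcl : x.1 = 4 ∧ ∃ f c : ℕ, runL 4 1 0 [] [] f c x.2 0 0 = true := by
      simp only [cl4, List.mem_cons, List.not_mem_nil, or_false] at hx
      rcases hx with rfl | rfl | rfl
      · exact ⟨rfl, cl_p22a⟩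
      · exact ⟨rfl, cl_p31⟩
      · exact ⟨rfl, cl_p4⟩
    obtain ⟨m, p⟩ := x
    obtain ⟨hm, hcl⟩ := hcl
    simp only at hm hcl h2
    subst hm
    obtain ⟨g, hg, hp⟩ := h2
    obtain ⟨e, he⟩ := exists_equiv (n := 10) (m := 4) (Fintype.card_fin (10 + 4)) g hg
    have hinj' : Function.Injective (fun i : Fin 10 => e (Fin.castAdd 4 i)) :=
      e.injective.comp (Fin.castAdd_injective 10 4)
    rcases ten (G.comap (fun i : Fin 10 => e (Fin.castAdd 4 i))) with h3 | ⟨T, hT, h3⟩
    · have h4 := h3.image G _ hinj'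
      have h5 := cl_of_has (by norm_num) hcl hg hp
      refine (h4.union h5).mono ?_
      intro v _
      obtain ⟨i, rfl⟩ := e.surjective v
      refine Fin.addCases (fun i => ?_) (fun j => ?_) i
      · exact Or.inl ⟨i, Set.mem_univ _, rfl⟩
      · exact Or.inr ⟨j, (he j).symm⟩
    · have hL : Has G 4 pL := by
        rcases has_of_iso hT h3 with h4 | h4
        · exact absurd (h4.of_comap hinj') hI
        · exact h4.of_comap hinj'
      rcases block_step (n := 10) (m := 4) (by norm_num) hav cl_pL ten tree_Z4 G hL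
        with h | ⟨x, hx, h⟩ | ⟨x, hx, _⟩
      · exact h
      · simp only [List.mem_cons, List.not_mem_nil, or_false] at hx
        subst hx
        exact absurd h hI
      · exact absurd hx List.not_mem_nil

end Pool.Agent.H48.Sub
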