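import Pool.Agent.H48.Sub.Stream

set_option autoImplicit false

namespace Pool.Agent.H48.Sub

/-! ## Patterns and target graphs -/

noncomputable def pK3 : List (ℕ × ℕ × Bool) :=
  [(0, 1, true), (0, 2, true), (1, 2, true)]

noncomputable def pI3 : List (ℕ × ℕ × Bool) :=
  [(0, 2, false), (1, 2, false)]

noncomputable def p22a : List (ℕ × ℕ × Bool) :=
  [(0, 2, false), (0, 3, false), (1, 2, false), (1, 3, false)]

noncomputable def p211 : List (ℕ × ℕ × Bool) :=
  [(0, 2, false), (0, 3, false), (1, 2, false), (1, 3, false), (2, 3, false)]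

noncomputable def p22 : List (ℕ × ℕ × Bool) :=
  [(0, 1, true), (2, 3, true), (0, 2, false), (0, 3, false), (1, 2, false), (1, 3, false)]

noncomputable def p31 : List (ℕ × ℕ × Bool) :=
  [(0, 1, true), (0, 2, true), (1, 2, true), (0, 3, false), (1, 3, false), (2, 3, false)]

noncomputable def p4 : List (ℕ × ℕ × Bool) :=
  [(0, 1, true), (0, 2, true), (0, 3, true), (1, 2, true), (1, 3, true), (2, 3, true)]

noncomputable def pI4 : List (ℕ × ℕ × Bool) :=
  [(0, 1, false), (0, 2, false), (0, 3, false), (1, 2, false), (1, 3, false), (2, 3, false)]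

noncomputable def pL : List (ℕ × ℕ × Bool) :=
  [(0, 1, true), (0, 2, false), (0, 3, false), (1, 2, false), (1, 3, false), (2, 3, false)]

noncomputable def pX0 : List (ℕ × ℕ × Bool) :=
  [(0, 1, true), (0, 2, false), (0, 3, false), (0, 4, true), (1, 2, true), (1, 3, false),
   (1, 4, false), (2, 3, true), (2, 4, false), (3, 4, true)]

noncomputable def pW0 : List (ℕ × ℕ × Bool) :=
  [(0, 1, true), (0, 2, false), (0, 3, false), (0, 4, true), (1, 2, true), (1, 3, false),
   (1, 4, false), (2, 3, true), (2, 4, false), (3, 4, true), (0, 5, true), (1, 5, true),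
   (2, 5, true), (3, 5, true), (4, 5, true)]

noncomputable def pX1 : List (ℕ × ℕ × Bool) :=
  [(0, 1, false), (0, 2, true), (0, 3, true), (0, 4, true), (1, 2, true), (1, 3, true),
   (1, 4, true), (2, 3, false), (2, 4, false), (3, 4, false)]

noncomputable def pW1 : List (ℕ × ℕ × Bool) :=
  [(0, 1, false), (0, 2, true), (0, 3, true), (0, 4, true), (1, 2, true), (1, 3, true),
   (1, 4, true), (2, 3, false), (2, 4, false), (3, 4, false), (0, 5, true), (1, 5, true),
   (2, 5, true), (3, 5, true), (4, 5, true)]

noncomputable def pX2 : List (ℕ × ℕ × Bool) :=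
  [(0, 1, true), (0, 2, false), (0, 3, true), (0, 4, true), (1, 2, true), (1, 3, false),
   (1, 4, false), (2, 3, true), (2, 4, false), (3, 4, false)]

noncomputable def pW2 : List (ℕ × ℕ × Bool) :=
  [(0, 1, true), (0, 2, false), (0, 3, true), (0, 4, true), (1, 2, true), (1, 3, false),
   (1, 4, false), (2, 3, true), (2, 4, false), (3, 4, false), (0, 5, true), (1, 5, true),
   (2, 5, true), (3, 5, true), (4, 5, true)]

noncomputable def pX3 : List (ℕ × ℕ × Bool) :=
  [(0, 1, true), (0, 2, false), (0, 3, true), (0, 4, false), (1, 2, true), (1, 3, false),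
   (1, 4, false), (2, 3, true), (2, 4, false), (3, 4, false)]

noncomputable def pW3 : List (ℕ × ℕ × Bool) :=
  [(0, 1, true), (0, 2, false), (0, 3, true), (0, 4, false), (1, 2, true), (1, 3, false),
   (1, 4, false), (2, 3, true), (2, 4, false), (3, 4, false), (0, 5, true), (1, 5, true),
   (2, 5, true), (3, 5, true), (4, 5, true)]

noncomputable def R0 : ℕ := 0xf000f0036003800380030
noncomputable def R1 : ℕ := 0x1f00270027003800380038
noncomputable def R2 : ℕ := 0x1f00230025002a00340038

noncomputable def LR : List ℕ := [R0, R1, R2]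

noncomputable def T0 : ℕ := 0x7f007f007f039e039e03ec03f003f003e00380
noncomputable def T1 : ℕ := 0x1df023f023f023f01de03ec03f003f003e003c0
noncomputable def T2 : ℕ := 0x1bf023f023f003f03c303cc03d003d003e003e0
noncomputable def T3 : ℕ := 0x1ff023f023f023f03c303cc03d003d003e003e0
noncomputable def T4 : ℕ := 0xff00ff030f0317031b036c03b003d003e003e0
noncomputable def T5 : ℕ := 0xdf00df033e033e00cf03cc03f003f003e00320
noncomputable def T6 : ℕ := 0x1bf025f025f01be024f03cc03f003f003e003a0
noncomputable def T7 : ℕ := 0xff00ff031f031f030f03cc03f003f003e003e0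
noncomputable def T8 : ℕ := 0xff00ff031f031f031f03ec03f003f003e003e0
noncomputable def T9 : ℕ := 0x7f00bf015f029f031f03ec03f003f003e003e0
noncomputable def T10 : ℕ := 0x1fe023f023f023f03ce03ce03f003f003f001c0
noncomputable def T11 : ℕ := 0x1fd023f023f023f03ce03ce03f003f001f003c0
noncomputable def T12 : ℕ := 0x1ff023f023f023f03ce03ce03f003f003f003c0
noncomputable def T13 : ℕ := 0x1ff023f023f023f03cd03ce03f003f003d003e0
noncomputable def T14 : ℕ := 0x1ef02fe031f031f031f01ee03f003f003f002e0
noncomputable def T15 : ℕ := 0x1ef02fd031f031f031f01ee03f003f002f003e0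
noncomputable def T16 : ℕ := 0x1ff02ef031f031f031f02ee03f003f003f003e0
noncomputable def T17 : ℕ := 0xef00ef033e033e03ce00cf03f003f003f00310
noncomputable def T18 : ℕ := 0x1bf026f026f01be03ce024f03f003f003f00390
noncomputable def T19 : ℕ := 0x1bf026f026f01bd03ce024f03f003f003b003d0
noncomputable def T20 : ℕ := 0xff00ff032f032f03ce030f03f003f003f003d0
noncomputable def T21 : ℕ := 0xef00ef036d039e039e006f03f003f003700390
noncomputable def T22 : ℕ := 0x1ef026f026f039e039e006f03f003f003f00390
noncomputable def T23 : ℕ := 0x1ef026f026f039d039e006f03f003f003b003d0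
noncomputable def T24 : ℕ := 0x1df02ef032f032f01de022f03f003f003f003d0
noncomputable def T25 : ℕ := 0xff00ff037e038f038f038f03f003f003f00370
noncomputable def T26 : ℕ := 0xff00ff036f038f038f030f03f003f003f003f0
noncomputable def T27 : ℕ := 0x1ff027f027f038f038f038f03f003f003f003f0
noncomputable def T28 : ℕ := 0x1fe023f025f02af034f038f03f003f003f001f0
noncomputable def T29 : ℕ := 0x1ff023f025f02af034f038f03f003f003f003f0
noncomputable def T30 : ℕ := 0xbf00bf033e003f03c603ca03d403e803f00340
noncomputable def T31 : ℕ := 0x1fe023f023f023f03c603ca03d403e803f001c0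
noncomputable def T32 : ℕ := 0x1bf023f023f003f03c603ca03d403e803f003c0
noncomputable def T33 : ℕ := 0x1ff023f023f023f03c603ca03d403e803f003c0
noncomputable def T34 : ℕ := 0xff00ff037c0399039903e203e20383031c0364

noncomputable def LT : List ℕ :=
  [T0, T1, T2, T3, T4, T5, T6, T7, T8, T9, T10, T11, T12, T13, T14, T15, T16, T17, T18, T19,
   T20, T21, T22, T23, T24, T25, T26, T27, T28, T29, T30, T31, T32, T33, T34]

/-- the three kinds of four-vertex clusters -/
noncomputable def cl4 : List (ℕ × List (ℕ × ℕ × Bool)) := [(4, p22a), (4, p31), (4, p4)]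

end Pool.Agent.H48.Sub
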