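import Pool.Agent.H48.Sub.Tree

set_option autoImplicit false

namespace Pool.Agent.H48.Sub

/-! ## Decision trees packed in one number, read from the low digits -/

noncomputable def nthLL (l : List (List (List ℕ))) : ℕ → List (List ℕ) :=
  List.rec (fun _ => []) (fun a _ ih k => Nat.rec a (fun k' _ => ih k') k) l

/-- decode one class -/
noncomputable def decCls (x : ℕ) : List (List ℕ) :=
  nthLL [[[dg x 1, dg x 2], [dg x 3, dg x 4]],
    [[dg x 1, dg x 2], [dg x 3]],
    [[dg x 1, dg x 2, dg x 3], [dg x 4]],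
    [[dg x 1, dg x 2, dg x 3, dg x 4]],
    [[dg x 1, dg x 2, dg x 3]],
    [[dg x 1, dg x 2, dg x 3], [dg x 4, dg x 5]],
    [[dg x 1, dg x 2], [dg x 3, dg x 4], [dg x 5]],
    [[dg x 1, dg x 2, dg x 3, dg x 4], [dg x 5]],
    [[dg x 1, dg x 2, dg x 3, dg x 4, dg x 5]]] (dg x 0)

noncomputable def decClss (c k : ℕ) : List (List (List ℕ)) :=
  Nat.rec [] (fun i ih => decCls (Nat.shiftRight c (Nat.add 4 (Nat.mul 24 i))) :: ih) k

noncomputable def decRest (c r : ℕ) : List ℕ := Nat.rec [] (fun i ih => dg c i :: ih) r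

noncomputable def okL (n k b : ℕ) (pats : List (ℕ × List (ℕ × ℕ × Bool))) (tg : List ℕ)
    (c P Q : ℕ) : Bool :=
  cond (Nat.ble (dg c 0) 4)
    (okCov n k b P Q (decClss c (dg c 0))
      (decRest (Nat.shiftRight c (Nat.add 8 (Nat.mul 24 (dg c 0))))
        (dg (Nat.shiftRight c (Nat.add 4 (Nat.mul 24 (dg c 0)))) 0)))
    (cond (Nat.beq (dg c 0) 13)
      (okLeaf n k b pats tg (LD.iso (Nat.land (Nat.shiftRight c 4) 255) (Nat.shiftRight c 12))
        P Q)
      (okLeaf n k b pats tg (LD.pat (dg c 1) (Nat.shiftRight c 8)) P Q))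

theorem okL_sound {n k b : ℕ} {pats : List (ℕ × List (ℕ × ℕ × Bool))} {tg : List ℕ}
    (hav : Av n b) {c P Q : ℕ} (h : okL n k b pats tg c P Q = true)
    {G : SimpleGraph (Fin n)} (hG : Cons G P Q) : Goal n k pats tg G := by
  unfold okL at h
  rcases h1 : Nat.ble (dg c 0) 4 with _ | _
  · rw [h1, cond_false] at h
    rcases h2 : Nat.beq (dg c 0) 13 with _ | _
    · rw [h2, cond_false] at h
      exact okLeaf_sound hav h hG
    · rw [h2, cond_true] at h
      exact okLeaf_sound hav h hG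
  · rw [h1, cond_true] at h
    exact Or.inl (okCov_sound hav h hG)

noncomputable def lenL (n c : ℕ) : ℕ :=
  cond (Nat.ble (dg c 0) 4)
    (Nat.add (Nat.add 8 (Nat.mul 24 (dg c 0)))
      (Nat.mul 4 (dg (Nat.shiftRight c (Nat.add 4 (Nat.mul 24 (dg c 0)))) 0)))
    (cond (Nat.beq (dg c 0) 13) (Nat.add 12 (Nat.mul 4 n)) 40)

noncomputable def runS (n k b : ℕ) (pats : List (ℕ × List (ℕ × ℕ × Bool))) (tg : List ℕ)
    (f : ℕ) : ℕ → List (ℕ × ℕ) → Bool :=
  Nat.rec (motive := fun _ => ℕ → List (ℕ × ℕ) → Bool)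
    (fun _ st => List.rec true (fun _ _ _ => false) st)
    (fun _ ih c st => List.rec true (fun x st' _ =>
      cond (Nat.beq (dg c 0) 15)
        (cond (valid n (dg c 1) (dg c 2))
          (ih (Nat.shiftRight c 12)
            ((x.1, Nat.lor x.2 (m2 (dg c 1) (dg c 2))) ::
              (Nat.lor x.1 (m2 (dg c 1) (dg c 2)), x.2) :: st')) false)
        (cond (okL n k b pats tg c x.1 x.2) (ih (Nat.shiftRight c (lenL n c)) st') false))
      st) f

theorem runS_sound {n k b : ℕ} {pats : List (ℕ × List (ℕ × ℕ × Bool))} {tg : List ℕ}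
    (hn : n ≤ 16) (hav : Av n b) (f : ℕ) :
    ∀ (c : ℕ) (st : List (ℕ × ℕ)), runS n k b pats tg f c st = true →
      ∀ x ∈ st, ∀ G : SimpleGraph (Fin n), Cons G x.1 x.2 → Goal n k pats tg G := by
  induction f with
  | zero =>
    intro c st h x hx
    rcases st with _ | ⟨y, st⟩
    · exact absurd hx List.not_mem_nil
    · exact Bool.noConfusion h
  | succ f ih =>
    intro c st h x hx G hG
    rcases st with _ | ⟨y, st⟩
    · exact absurd hx List.not_mem_nil
    · have h1 : runS n k b pats tg (f + 1) c (y :: st) =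
        cond (Nat.beq (dg c 0) 15)
          (cond (valid n (dg c 1) (dg c 2))
            (runS n k b pats tg f (Nat.shiftRight c 12)
              ((y.1, Nat.lor y.2 (m2 (dg c 1) (dg c 2))) ::
                (Nat.lor y.1 (m2 (dg c 1) (dg c 2)), y.2) :: st)) false)
          (cond (okL n k b pats tg c y.1 y.2)
            (runS n k b pats tg f (Nat.shiftRight c (lenL n c)) st) false) := rfl
      rw [h1] at h
      rcases h2 : Nat.beq (dg c 0) 15 with _ | _
      · rw [h2, cond_false] at h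
        obtain ⟨h3, h4⟩ := cond3 h
        rcases List.mem_cons.mp hx with rfl | h5
        · exact okL_sound hav h3 hG
        · exact ih _ _ h4 x h5 G hG
      · rw [h2, cond_true] at h
        obtain ⟨h3, h4⟩ := cond3 h
        obtain ⟨hu, hv, huv⟩ := valid_spec h3
        rcases List.mem_cons.mp hx with rfl | h5
        · by_cases hadj : G.Adj ⟨dg c 1, hu⟩ ⟨dg c 2, hv⟩
          · exact ih _ _ h4 _ (List.mem_cons_of_mem _ List.mem_cons_self) G
              (hG.pos hn hu hv hadj)
          · exact ih _ _ h4 _ List.mem_cons_self G (hG.neg hn hu hv hadj)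
        · exact ih _ _ h4 x (List.mem_cons_of_mem _ (List.mem_cons_of_mem _ h5)) G hG

/-- run a packed tree after assuming a list of adjacencies -/
noncomputable def runL (n k b : ℕ) (pats : List (ℕ × List (ℕ × ℕ × Bool))) (tg : List ℕ)
    (f c : ℕ) (L : List (ℕ × ℕ × Bool)) : ℕ → ℕ → Bool :=
  List.rec (motive := fun _ => ℕ → ℕ → Bool) (fun P Q => runS n k b pats tg f c [(P, Q)])
    (fun x _ ih P Q => cond (valid n x.1 x.2.1)
      (cond x.2.2 (ih (Nat.lor P (m2 x.1 x.2.1)) Q) (ih P (Nat.lor Q (m2 x.1 x.2.1)))) false) L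

theorem runL_sound {n k b : ℕ} {pats : List (ℕ × List (ℕ × ℕ × Bool))} {tg : List ℕ}
    (hn : n ≤ 16) (hav : Av n b) (f c : ℕ) (L : List (ℕ × ℕ × Bool)) :
    ∀ P Q : ℕ, runL n k b pats tg f c L P Q = true →
      ∀ G : SimpleGraph (Fin n), Cons G P Q →
      (∀ x ∈ L, ∀ (hi : x.1 < n) (hj : x.2.1 < n),
        (G.Adj ⟨x.1, hi⟩ ⟨x.2.1, hj⟩ ↔ x.2.2 = true)) → Goal n k pats tg G := by
  induction L with
  | nil =>
    intro P Q h G hG _
    exact runS_sound hn hav f c [(P, Q)] h (P, Q) List.mem_cons_self G hG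
  | cons x L ih =>
    intro P Q h G hG hL
    have h0 : runL n k b pats tg f c (x :: L) P Q = cond (valid n x.1 x.2.1)
      (cond x.2.2 (runL n k b pats tg f c L (Nat.lor P (m2 x.1 x.2.1)) Q)
        (runL n k b pats tg f c L P (Nat.lor Q (m2 x.1 x.2.1)))) false := rfl
    rw [h0] at h
    obtain ⟨h1, h2⟩ := cond3 h
    obtain ⟨hu, hv, huv⟩ := valid_spec h1
    have h3 := hL x List.mem_cons_self hu hv
    have hL' := fun y hy => hL y (List.mem_cons_of_mem x hy)
    rcases hb : x.2.2 with _ | _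
    · rw [hb] at h2 h3
      exact ih _ _ h2 G (hG.neg hn hu hv (by simpa using h3)) hL'
    · rw [hb] at h2 h3
      exact ih _ _ h2 G (hG.pos hn hu hv (by simpa using h3)) hL'

/-- packed tree for a based graph -/
noncomputable def runB (n m k b : ℕ) (pats : List (ℕ × List (ℕ × ℕ × Bool))) (tg : List ℕ)
    (T : ℕ) (p : List (ℕ × ℕ × Bool)) (f c : ℕ) : Bool :=
  runL (n + m) k b pats tg f c (shiftL n p (baseL n T)) 0 0

theorem runB_sound {n m k b : ℕ} {pats : List (ℕ × List (ℕ × ℕ × Bool))} {tg : List ℕ}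
    {T : ℕ} {p : List (ℕ × ℕ × Bool)} {f c : ℕ}
    (hn : n + m ≤ 16) (hav : Av (n + m) b)
    (h : runB n m k b pats tg T p f c = true) {V : Type*} (G : SimpleGraph V)
    (e : Fin (n + m) ≃ V) (hB : Based G n m T p e) :
    Goal (n + m) k pats tg (G.comap e) := by
  refine runL_sound hn hav f c _ 0 0 h _ (cons_zero _) ?_
  intro x hx hi hj
  rcases shiftL_spec x hx with h1 | ⟨y, hy, rfl⟩
  · obtain ⟨h2, h3, h4⟩ := baseL_spec x h1
    have hi' : x.1 < n := by omega
    have h5 := hB.1 ⟨x.1, hi'⟩ ⟨x.2.1, h3⟩ (by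
      intro h; exact absurd (congrArg Fin.val h) (by simp; omega))
    rw [h4]
    exact h5
  · have hi' : y.1 < m := by
      have : n + y.1 < n + m := hi
      omega
    have hj' : y.2.1 < m := by
      have : n + y.2.1 < n + m := hj
      omega
    exact hB.2 y hy hi' hj'

end Pool.Agent.H48.Sub
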