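import Pool.Agent.H48.Sub.Core

set_option autoImplicit false

namespace Pool.Agent.H48.Sub

/-! ## Loops -/

noncomputable def allB (n : ℕ) (f : ℕ → Bool) : Bool :=
  Nat.rec true (fun k ih => cond (f k) ih false) n

theorem allB_spec {n : ℕ} {f : ℕ → Bool} (h : allB n f = true) : ∀ i < n, f i = true := by
  induction n with
  | zero => intro i hi; omega
  | succ n ih =>
    have h1 : allB (n + 1) f = cond (f n) (allB n f) false := rfl
    rw [h1] at h
    rcases hb : f n with _ | _
    · rw [hb] at h; exact Bool.noConfusion h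
    · rw [hb] at h
      intro i hi
      rcases Nat.lt_succ_iff_lt_or_eq.mp hi with h2 | h2
      · exact ih h i h2
      · rw [h2]; exact hb

/-- base-16 digit -/
noncomputable def dg (m i : ℕ) : ℕ := Nat.land (Nat.shiftRight m (Nat.mul 4 i)) 15

theorem cond3 {a b : Bool} (h : cond a b false = true) : a = true ∧ b = true := by
  rcases a with _ | _
  · exact Bool.noConfusion h
  · exact ⟨rfl, h⟩

/-! ## Patterns -/

/-- `G` contains an injective copy of the pattern `p` on `m` vertices. -/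
def Has {V : Type*} (G : SimpleGraph V) (m : ℕ) (p : List (ℕ × ℕ × Bool)) : Prop :=
  ∃ g : Fin m → V, Function.Injective g ∧
    ∀ x ∈ p, ∀ (hi : x.1 < m) (hj : x.2.1 < m),
      (G.Adj (g ⟨x.1, hi⟩) (g ⟨x.2.1, hj⟩) ↔ x.2.2 = true)

noncomputable def patOK (P Q l : ℕ) (p : List (ℕ × ℕ × Bool)) : Bool :=
  List.rec true (fun x _ ih =>
    cond (bit (cond x.2.2 P Q) (ix (dg l x.1) (dg l x.2.1))) ih false) p

theorem patOK_spec {P Q l : ℕ} {p : List (ℕ × ℕ × Bool)} (h : patOK P Q l p = true) :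
    ∀ x ∈ p, bit (cond x.2.2 P Q) (ix (dg l x.1) (dg l x.2.1)) = true := by
  induction p with
  | nil => intro x hx; exact absurd hx List.not_mem_nil
  | cons y p ih =>
    have h1 : patOK P Q l (y :: p) =
      cond (bit (cond y.2.2 P Q) (ix (dg l y.1) (dg l y.2.1))) (patOK P Q l p) false := rfl
    rw [h1] at h
    obtain ⟨h2, h3⟩ := cond3 h
    intro x hx
    rcases List.mem_cons.mp hx with rfl | h4
    · exact h2
    · exact ih h3 x h4

noncomputable def injOK (m l : ℕ) : Bool :=
  allB m (fun j => allB j (fun i => cond (Nat.beq (dg l i) (dg l j)) false true))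

theorem injOK_spec {m l : ℕ} (h : injOK m l = true) :
    ∀ i j, i < m → j < m → dg l i = dg l j → i = j := by
  have key : ∀ j < m, ∀ i < j, dg l i ≠ dg l j := by
    intro j hj i hi heq
    have h1 := allB_spec (allB_spec h j hj) i hi
    have h2 : Nat.beq (dg l i) (dg l j) = true := by
      rw [heq]; exact Nat.beq_refl _
    rw [h2] at h1
    exact Bool.noConfusion h1
  intro i j hi hj heq
  rcases lt_trichotomy i j with h1 | h1 | h1
  · exact absurd heq (key j hj i h1)
  · exact h1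
  · exact absurd heq.symm (key i hi j h1)

noncomputable def ltOK (n m l : ℕ) : Bool :=
  allB m (fun i => Nat.ble (Nat.succ (dg l i)) n)

theorem ltOK_spec {n m l : ℕ} (h : ltOK n m l = true) : ∀ i < m, dg l i < n := by
  intro i hi
  exact Nat.le_of_ble_eq_true (allB_spec h i hi)

noncomputable def okPat (n P Q m : ℕ) (p : List (ℕ × ℕ × Bool)) (l : ℕ) : Bool :=
  cond (ltOK n m l) (cond (injOK m l) (patOK P Q l p) false) false

theorem okPat_sound {n P Q m : ℕ} {p : List (ℕ × ℕ × Bool)} {l : ℕ}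
    (h : okPat n P Q m p l = true) {G : SimpleGraph (Fin n)} (hG : Cons G P Q) : Has G m p := by
  obtain ⟨h1, h2⟩ := cond3 h
  obtain ⟨h2, h3⟩ := cond3 h2
  have hlt := ltOK_spec h1
  refine ⟨fun i => ⟨dg l i.val, hlt i.val i.isLt⟩, ?_, ?_⟩
  · intro i j hij
    exact Fin.ext (injOK_spec h2 i.val j.val i.isLt j.isLt (congrArg Fin.val hij))
  · intro x hx hi hj
    have h4 := patOK_spec h3 x hx
    rcases hb : x.2.2 with _ | _
    · rw [hb] at h4
      have := hG.2 ⟨dg l x.1, hlt _ hi⟩ ⟨dg l x.2.1, hlt _ hj⟩ h4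
      simp [this]
    · rw [hb] at h4
      have := hG.1 ⟨dg l x.1, hlt _ hi⟩ ⟨dg l x.2.1, hlt _ hj⟩ h4
      simp [this]

/-! ## Isomorphism leaves -/

/-- `G` is, up to a relabelling, the graph with bit matrix `T`. -/
def Iso {n : ℕ} (G : SimpleGraph (Fin n)) (T : ℕ) : Prop :=
  ∃ e : Fin n ≃ Fin n, ∀ i j : Fin n, i ≠ j →
    (G.Adj (e i) (e j) ↔ bit T (ix i.val j.val) = true)

noncomputable def isoPairs (n P Q T p : ℕ) : Bool :=
  allB n (fun j => allB j (fun i =>
    bit (cond (bit T (ix (dg p i) (dg p j))) P Q) (ix i j)))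

noncomputable def symOK (n T : ℕ) : Bool :=
  allB n (fun j => allB j (fun i => cond (bit T (ix i j)) (bit T (ix j i))
    (cond (bit T (ix j i)) false true)))

theorem symOK_spec {n T : ℕ} (h : symOK n T = true) :
    ∀ i j, i < n → j < n → bit T (ix i j) = bit T (ix j i) := by
  have key : ∀ j < n, ∀ i < j, bit T (ix i j) = bit T (ix j i) := by
    intro j hj i hi
    have h1 := allB_spec (allB_spec h j hj) i hi
    rcases h2 : bit T (ix i j) with _ | _ <;> rcases h3 : bit T (ix j i) with _ | _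
    · rfl
    · rw [h2, h3] at h1; exact Bool.noConfusion h1
    · rw [h2, h3] at h1; exact Bool.noConfusion h1
    · rfl
  intro i j hi hj
  rcases lt_trichotomy i j with h1 | h1 | h1
  · exact key j hj i h1
  · rw [h1]
  · exact (key i hi j h1).symm

noncomputable def okIso (n P Q T p : ℕ) : Bool :=
  cond (ltOK n n p) (cond (injOK n p) (cond (symOK n T) (isoPairs n P Q T p) false) false) false

theorem okIso_sound {n P Q T p : ℕ} (h : okIso n P Q T p = true)
    {G : SimpleGraph (Fin n)} (hG : Cons G P Q) : Iso G T := by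
  obtain ⟨h1, h2⟩ := cond3 h
  obtain ⟨h2, h3⟩ := cond3 h2
  obtain ⟨h3, h4⟩ := cond3 h3
  have hlt := ltOK_spec h1
  have hinj := injOK_spec h2
  have hsym := symOK_spec h3
  let f : Fin n → Fin n := fun i => ⟨dg p i.val, hlt i.val i.isLt⟩
  have hf : Function.Injective f := fun i j hij =>
    Fin.ext (hinj i.val j.val i.isLt j.isLt (congrArg Fin.val hij))
  let e : Fin n ≃ Fin n := Equiv.ofBijective f (Finite.injective_iff_bijective.mp hf)
  have key : ∀ i j : Fin n, i < j →
      (G.Adj i j ↔ bit T (ix (e i).val (e j).val) = true) := by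
    intro i j hij
    have h5 := allB_spec (allB_spec h4 j.val j.isLt) i.val hij
    have h6 : (e i).val = dg p i.val := rfl
    have h7 : (e j).val = dg p j.val := rfl
    rw [h6, h7]
    rcases h8 : bit T (ix (dg p i.val) (dg p j.val)) with _ | _
    · rw [h8] at h5
      have := hG.2 i j h5
      simp [this]
    · rw [h8] at h5
      have := hG.1 i j h5
      simp [this]
  have key2 : ∀ i j : Fin n, i ≠ j →
      (G.Adj i j ↔ bit T (ix (e i).val (e j).val) = true) := by
    intro i j hij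
    rcases lt_or_gt_of_ne hij with h5 | h5
    · exact key i j h5
    · rw [G.adj_comm, key j i h5, hsym _ _ (e j).isLt (e i).isLt]
  refine ⟨e.symm, fun i j hij => ?_⟩
  have h5 := key2 (e.symm i) (e.symm j) (fun h => hij (e.symm.injective h))
  rw [e.apply_symm_apply, e.apply_symm_apply] at h5
  exact h5

/-! ## Trees -/

/-- leaf data -/
inductive LD : Type
  | cov (c : List (List (List ℕ))) (r : List ℕ)
  | pat (k l : ℕ)
  | iso (t p : ℕ)

/-- The conclusion reached at the leaves. -/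
def Goal (n k : ℕ) (pats : List (ℕ × List (ℕ × ℕ × Bool))) (tg : List ℕ)
    (G : SimpleGraph (Fin n)) : Prop :=
  Cov G k Set.univ ∨ (∃ x ∈ pats, Has G x.1 x.2) ∨ (∃ T ∈ tg, Iso G T)

noncomputable def nthN (l : List ℕ) : ℕ → ℕ :=
  List.rec (fun _ => 0) (fun a _ ih k => Nat.rec a (fun k' _ => ih k') k) l

noncomputable def nthP (l : List (ℕ × List (ℕ × ℕ × Bool))) : ℕ → ℕ × List (ℕ × ℕ × Bool) :=
  List.rec (fun _ => (0, [])) (fun a _ ih k => Nat.rec a (fun k' _ => ih k') k) l

theorem nthN_mem (l : List ℕ) (k : ℕ) (h : k < l.length) : nthN l k ∈ l := by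
  induction l generalizing k with
  | nil => simp at h
  | cons a l ih =>
    rcases k with _ | k
    · exact List.mem_cons_self
    · exact List.mem_cons_of_mem _ (ih k (by simpa using h))

theorem nthP_mem (l : List (ℕ × List (ℕ × ℕ × Bool))) (k : ℕ) (h : k < l.length) :
    nthP l k ∈ l := by
  induction l generalizing k with
  | nil => simp at h
  | cons a l ih =>
    rcases k with _ | k
    · exact List.mem_cons_self
    · exact List.mem_cons_of_mem _ (ih k (by simpa using h))

noncomputable def okLeaf (n k b : ℕ) (pats : List (ℕ × List (ℕ × ℕ × Bool))) (tg : List ℕ)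
    (d : LD) (P Q : ℕ) : Bool :=
  LD.rec (fun c r => okCov n k b P Q c r)
    (fun i l => cond (Nat.ble (Nat.succ i) (len pats))
      (okPat n P Q (nthP pats i).1 (nthP pats i).2 l) false)
    (fun t p => cond (Nat.ble (Nat.succ t) (len tg)) (okIso n P Q (nthN tg t) p) false) d

noncomputable def valid (n u v : ℕ) : Bool :=
  cond (Nat.ble (Nat.succ u) n) (cond (Nat.ble (Nat.succ v) n)
    (cond (Nat.beq u v) false true) false) false

theorem valid_spec {n u v : ℕ} (h : valid n u v = true) : u < n ∧ v < n ∧ u ≠ v := by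
  obtain ⟨h1, h2⟩ := cond3 h
  obtain ⟨h2, h3⟩ := cond3 h2
  refine ⟨Nat.le_of_ble_eq_true h1, Nat.le_of_ble_eq_true h2, ?_⟩
  rintro rfl
  rw [Nat.beq_refl] at h3
  exact Bool.noConfusion h3

theorem okLeaf_sound {n k b : ℕ} {pats : List (ℕ × List (ℕ × ℕ × Bool))} {tg : List ℕ}
    (hav : Av n b) {d : LD} {P Q : ℕ}
    (h : okLeaf n k b pats tg d P Q = true)
    {G : SimpleGraph (Fin n)} (hG : Cons G P Q) : Goal n k pats tg G := by
  rcases d with ⟨c, r⟩ | ⟨i, l⟩ | ⟨t, p⟩
  · exact Or.inl (okCov_sound hav h hG)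
  · obtain ⟨h1, h2⟩ := cond3 (a := Nat.ble (Nat.succ i) (len pats)) h
    rw [len_eq] at h1
    exact Or.inr (Or.inl ⟨_, nthP_mem pats i (Nat.le_of_ble_eq_true h1), okPat_sound h2 hG⟩)
  · obtain ⟨h1, h2⟩ := cond3 (a := Nat.ble (Nat.succ t) (len tg)) h
    rw [len_eq] at h1
    exact Or.inr (Or.inr ⟨_, nthN_mem tg t (Nat.le_of_ble_eq_true h1), okIso_sound h2 hG⟩)

theorem cons_zero {n : ℕ} (G : SimpleGraph (Fin n)) : Cons G 0 0 := by
  constructor
  · intro i j h; rw [bit_eq, Nat.zero_testBit] at h; exact Bool.noConfusion h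
  · intro i j h; rw [bit_eq, Nat.zero_testBit] at h; exact Bool.noConfusion h

/-! ## Block decomposition -/

/-- A base graph given by a bit matrix on the first `n` vertices and a pattern on the
last `m` vertices. -/
def Based {V : Type*} (G : SimpleGraph V) (n m T : ℕ) (p : List (ℕ × ℕ × Bool))
    (e : Fin (n + m) ≃ V) : Prop :=
  (∀ i j : Fin n, i ≠ j →
    (G.Adj (e (Fin.castAdd m i)) (e (Fin.castAdd m j)) ↔ bit T (ix i.val j.val) = true)) ∧
  (∀ x ∈ p, ∀ (hi : x.1 < m) (hj : x.2.1 < m),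
      (G.Adj (e (Fin.natAdd n ⟨x.1, hi⟩)) (e (Fin.natAdd n ⟨x.2.1, hj⟩)) ↔ x.2.2 = true))

theorem exists_equiv {V : Type*} [Fintype V] {n m : ℕ} (hV : Fintype.card V = n + m)
    (g : Fin m → V) (hg : Function.Injective g) :
    ∃ e : Fin (n + m) ≃ V, ∀ j : Fin m, e (Fin.natAdd n j) = g j := by
  classical
  have h1 : Fintype.card {v : V // v ∉ Set.range g} = n := by
    have h2 := Fintype.card_subtype_compl (fun v : V => v ∈ Set.range g)
    have h3 : Fintype.card {v : V // v ∈ Set.range g} = m := by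
      have := Fintype.card_congr (Equiv.ofInjective g hg)
      rw [Fintype.card_fin] at this
      exact this.symm
    omega
  let e1 : Fin n ≃ {v : V // v ∉ Set.range g} := (Fintype.equivFinOfCardEq h1).symm
  let e2 : Fin m ≃ {v : V // v ∈ Set.range g} := Equiv.ofInjective g hg
  let e3 : Fin n ⊕ Fin m ≃ V :=
    ((Equiv.sumComm _ _).trans (Equiv.sumCongr e2 e1)).trans
      (Equiv.sumCompl (fun v : V => v ∈ Set.range g))
  refine ⟨finSumFinEquiv.symm.trans e3, fun j => ?_⟩
  simp [e3, e2]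

theorem exists_based {V : Type*} [Fintype V] (G : SimpleGraph V) {n m : ℕ}
    {p : List (ℕ × ℕ × Bool)} (e : Fin (n + m) ≃ V)
    (hp : ∀ x ∈ p, ∀ (hi : x.1 < m) (hj : x.2.1 < m),
      (G.Adj (e (Fin.natAdd n ⟨x.1, hi⟩)) (e (Fin.natAdd n ⟨x.2.1, hj⟩)) ↔ x.2.2 = true))
    {T : ℕ} (hT : Iso (G.comap (fun i : Fin n => e (Fin.castAdd m i))) T) :
    ∃ e' : Fin (n + m) ≃ V, Based G n m T p e' := by
  obtain ⟨s, hs⟩ := hT
  obtain ⟨s', h1, h2⟩ : ∃ s' : Fin (n + m) ≃ Fin (n + m),
      (∀ i : Fin n, s' (Fin.castAdd m i) = Fin.castAdd m (s i)) ∧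
      (∀ i : Fin m, s' (Fin.natAdd n i) = Fin.natAdd n i) := by
    refine ⟨(finSumFinEquiv.symm.trans (Equiv.sumCongr s (Equiv.refl (Fin m)))).trans
      finSumFinEquiv, ?_, ?_⟩
    · intro i; simp
    · intro i; simp
  refine ⟨s'.trans e, ?_, ?_⟩
  · intro i j hij
    rw [Equiv.trans_apply, Equiv.trans_apply, h1, h1]
    exact hs i j hij
  · intro x hx hi hj
    rw [Equiv.trans_apply, Equiv.trans_apply, h2, h2]
    exact hp x hx hi hj

/-- adjacencies of the base graph -/
noncomputable def baseL (n T : ℕ) : List (ℕ × ℕ × Bool) :=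
  Nat.rec [] (fun j ihj => Nat.rec ihj (fun i ihi => (i, j, bit T (ix i j)) :: ihi) j) n

theorem baseL_spec {n T : ℕ} : ∀ x ∈ baseL n T,
    x.1 < x.2.1 ∧ x.2.1 < n ∧ x.2.2 = bit T (ix x.1 x.2.1) := by
  induction n with
  | zero => intro x hx; exact absurd hx List.not_mem_nil
  | succ n ih =>
    have key : ∀ k ≤ n, ∀ x ∈ (Nat.rec (baseL n T)
        (fun i ihi => (i, n, bit T (ix i n)) :: ihi) k : List (ℕ × ℕ × Bool)),
        x.1 < x.2.1 ∧ x.2.1 < n + 1 ∧ x.2.2 = bit T (ix x.1 x.2.1) := by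
      intro k
      induction k with
      | zero =>
        intro _ x hx
        obtain ⟨h1, h2, h3⟩ := ih x hx
        exact ⟨h1, by omega, h3⟩
      | succ k ihk =>
        intro hk x hx
        rcases List.mem_cons.mp hx with rfl | h1
        · exact ⟨by show k < n; omega, by show n < n + 1; omega, rfl⟩
        · exact ihk (by omega) x h1
    exact key n le_rfl

noncomputable def shiftL (n : ℕ) (p : List (ℕ × ℕ × Bool)) (L : List (ℕ × ℕ × Bool)) :
    List (ℕ × ℕ × Bool) :=
  List.rec L (fun x _ ih => (Nat.add n x.1, Nat.add n x.2.1, x.2.2) :: ih) p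

theorem shiftL_spec {n : ℕ} {p L : List (ℕ × ℕ × Bool)} :
    ∀ x ∈ shiftL n p L, x ∈ L ∨ ∃ y ∈ p, x = (n + y.1, n + y.2.1, y.2.2) := by
  induction p with
  | nil => intro x hx; exact Or.inl hx
  | cons y p ih =>
    intro x hx
    rcases List.mem_cons.mp hx with rfl | h1
    · exact Or.inr ⟨y, List.mem_cons_self, rfl⟩
    · rcases ih x h1 with h2 | ⟨z, hz, h2⟩
      · exact Or.inl h2
      · exact Or.inr ⟨z, List.mem_cons_of_mem _ hz, h2⟩

end Pool.Agent.H48.Sub
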